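import Pool.Agent.N270.CH.Pair
import Pool.Agent.Y837.SV.Crit3

/-! From the group to the parameters; record gaps in boxes. -/

set_option autoImplicit false
set_option linter.unusedSectionVars false

namespace Pool.Agent.N270.CH

open Finset Matrix MvPolynomial
open Pool.Agent.R433.SL (sp Unif Low surj eps_small zero_bd low_count low_upper far far_one top_ne)

section par

variable {m d q : ℕ} {C : ℝ} {Y : Matrix (Fin m) (Fin m) (MvPolynomial (Fin d) ℤ)}
  {hdet : Y.det = 1}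

theorem single_x (hC : 0 ≤ C) (hU : Unif Y hdet q C) {p : ℕ} [Fact p.Prime] (hq : q < p)
    (P : MvPolynomial (Fin d) ℤ) (f : SpecialLinearGroup (Fin m) (ZMod p) → ZMod p)
    (hP : ∀ x, aeval x P = f (sp Y hdet x)) (κ : ℝ) (hκ : 0 ≤ κ) (h : Equi1 f κ) (r : ZMod p)
    (hr : r ≠ 0) :
    |(p : ℝ) * ((univ.filter fun x : Fin d → ZMod p => aeval x P = r).card : ℝ) -
        (p : ℝ) ^ d| * p ≤ (2 + 2 * κ + C) * (p : ℝ) ^ d := by
  classical
  have hpp := (Fact.out : p.Prime)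
  have h1 := h r hr
  have hlow := hU p hq
  have hε0 : 0 ≤ C / (p : ℝ) ^ 2 := by positivity
  have h3 := low_count hlow (fun A => f A = r)
  have h4 := low_upper hlow hε0 (fun A => f A = r)
  have e1 : ∀ inst : DecidablePred fun x : Fin d → ZMod p => f (sp Y hdet x) = r,
      @Finset.filter _ (fun x : Fin d → ZMod p => f (sp Y hdet x) = r) inst univ =
      univ.filter (fun x : Fin d → ZMod p => aeval x P = r) := fun inst => by
    ext x
    rw [mem_filter, mem_filter, hP]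
  obtain ⟨SN, hSN⟩ : ∃ SN : Finset (SpecialLinearGroup (Fin m) (ZMod p)),
      SN = univ.filter (fun A : SpecialLinearGroup (Fin m) (ZMod p) => f A = r) := ⟨_, rfl⟩
  have e2 : ∀ inst : DecidablePred fun A : SpecialLinearGroup (Fin m) (ZMod p) => f A = r,
      @Finset.filter _ (fun A : SpecialLinearGroup (Fin m) (ZMod p) => f A = r) inst univ =
      SN := fun inst => by
    rw [hSN]
    congr!
  rw [e1, e2, Fintype.card_fun, ZMod.card, Fintype.card_fin] at h3 h4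
  rw [ZMod.card, ← hSN, card_units_real, ZMod.card] at h1
  have hNle : SN.card ≤ Fintype.card (SpecialLinearGroup (Fin m) (ZMod p)) := by
    rw [← Finset.card_univ]
    exact Finset.card_le_card (Finset.subset_univ _)
  set M : ℝ := ((univ.filter fun x : Fin d → ZMod p => aeval x P = r).card : ℝ) with hM
  set N : ℝ := (SN.card : ℝ) with hN
  set G : ℝ := (Fintype.card (SpecialLinearGroup (Fin m) (ZMod p)) : ℝ) with hG
  have hG0 : 0 < G := by rw [hG]; exact_mod_cast Fintype.card_pos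
  have hNG : N ≤ G := by rw [hN, hG]; exact_mod_cast hNle
  have hp2 : (2 : ℝ) ≤ p := by exact_mod_cast hpp.two_le
  have hpd : (0 : ℝ) < (p : ℝ) ^ d := by positivity
  have hN0 : 0 ≤ N := Nat.cast_nonneg _
  have hp0 : (0 : ℝ) < p := by linarith
  rw [abs_le] at h1
  obtain ⟨h1a, h1b⟩ := h1
  push_cast at h3 h4
  set D : ℝ := (p : ℝ) ^ d with hD
  have hCp : C / (p : ℝ) ^ 2 * p ^ 2 = C := by field_simp
  set ε : ℝ := C / (p : ℝ) ^ 2 with hε
  -- upper bound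
  have hup : G * ((p : ℝ) * M - D) * p ≤ G * ((2 + 2 * κ + C) * D) := by
    have a1 : (p : ℝ) * p * N ≤ G * (p + 2 + 2 * κ) := by
      have b1 : (p : ℝ) * p ≤ (p - 1) * (p + 2) := by nlinarith
      have b2 : (p : ℝ) * ((p - 1) * N) ≤ (p + κ) * G := by nlinarith
      have b3 : (p : ℝ) * p * N ≤ (p - 1) * (p + 2) * N := mul_le_mul_of_nonneg_right b1 hN0
      have b4 : (p : ℝ) * (p * p * N) ≤ p * ((p - 1) * (p + 2) * N) :=
        mul_le_mul_of_nonneg_left b3 hp0.le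
      have b5 : (p : ℝ) * ((p - 1) * (p + 2) * N) = (p + 2) * (p * ((p - 1) * N)) := by ring
      have b6 : (p + 2) * ((p : ℝ) * ((p - 1) * N)) ≤ (p + 2) * ((p + κ) * G) :=
        mul_le_mul_of_nonneg_left b2 (by linarith)
      have b7 : ((p : ℝ) + 2) * ((p + κ) * G) ≤ p * (G * (p + 2 + 2 * κ)) := by
        have c1 : 0 ≤ κ * (p - 2) * G := by
          apply mul_nonneg (mul_nonneg hκ (by linarith)) hG0.le
        nlinarith
      exact le_of_mul_le_mul_left (b4.trans (by rw [b5]; exact b6.trans b7)) hp0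
    have a2 : (p : ℝ) * p * (G * M) ≤ (p : ℝ) * p * (N * D + ε * (G * D)) :=
      mul_le_mul_of_nonneg_left h4 (by positivity)
    have a3 : (p : ℝ) * p * (N * D + ε * (G * D)) = (p : ℝ) * p * N * D + (ε * p ^ 2) * (G * D) := by
      ring
    have a4 : (p : ℝ) * p * N * D ≤ G * (p + 2 + 2 * κ) * D := mul_le_mul_of_nonneg_right a1 hpd.le
    rw [a3, hCp] at a2
    nlinarith
  -- lower bound
  have hlo : G * (D - (p : ℝ) * M) * p ≤ G * ((2 + 2 * κ + C) * D) := by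
    have a2 : G * (p - κ) ≤ (p : ℝ) * p * N := by
      have c1 : 0 ≤ (p : ℝ) * N := by positivity
      nlinarith
    have a3 : (p : ℝ) * p * ((1 - ε) * N * D) ≤ (p : ℝ) * p * (G * M) :=
      mul_le_mul_of_nonneg_left h3 (by positivity)
    have a4 : (p : ℝ) * p * (ε * N * D) ≤ C * G * D := by
      calc (p : ℝ) * p * (ε * N * D) = (ε * p ^ 2) * N * D := by ring
        _ = C * N * D := by rw [hCp]
        _ ≤ C * G * D := by
          apply mul_le_mul_of_nonneg_right _ hpd.le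
          exact mul_le_mul_of_nonneg_left hNG hC
    have a5 : G * (p - κ) * D ≤ (p : ℝ) * p * N * D := mul_le_mul_of_nonneg_right a2 hpd.le
    have a6 : 0 ≤ G * D := by positivity
    have a7 : 0 ≤ κ * (G * D) := mul_nonneg hκ a6
    nlinarith
  have hup' : ((p : ℝ) * M - D) * p ≤ (2 + 2 * κ + C) * D := by
    refine le_of_mul_le_mul_left ?_ hG0
    calc G * (((p : ℝ) * M - D) * p) = G * ((p : ℝ) * M - D) * p := by ring
      _ ≤ _ := hup
  have hlo' : (D - (p : ℝ) * M) * p ≤ (2 + 2 * κ + C) * D := by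
    refine le_of_mul_le_mul_left ?_ hG0
    calc G * ((D - (p : ℝ) * M) * p) = G * (D - (p : ℝ) * M) * p := by ring
      _ ≤ _ := hlo
  rcases abs_cases ((p : ℝ) * M - D) with ⟨h, -⟩ | ⟨h, -⟩
  · rw [h]
    exact hup'
  · rw [h, neg_sub]
    exact hlo'

theorem pair_x (hC : 0 ≤ C) (hU : Unif Y hdet q C) {p : ℕ} [Fact p.Prime] (hq : q < p)
    (P Q : MvPolynomial (Fin d) ℤ) (f g : SpecialLinearGroup (Fin m) (ZMod p) → ZMod p)
    (hP : ∀ x, aeval x P = f (sp Y hdet x)) (hQ : ∀ x, aeval x Q = g (sp Y hdet x)) (K : ℝ)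
    (r s : ZMod p)
    (h : (p : ℝ) ^ 2 * ((univ.filter fun A : SpecialLinearGroup (Fin m) (ZMod p) =>
        f A = r ∧ g A = s).card : ℝ) ≤ K * Fintype.card (SpecialLinearGroup (Fin m) (ZMod p))) :
    (p : ℝ) ^ 2 * ((univ.filter fun x : Fin d → ZMod p => aeval x P = r ∧
        aeval x Q = s).card : ℝ) ≤ (K + C) * (p : ℝ) ^ d := by
  classical
  have hpp := (Fact.out : p.Prime)
  have hlow := hU p hq
  have hε0 : 0 ≤ C / (p : ℝ) ^ 2 := by positivity
  have h4 := low_upper hlow hε0 (fun A => f A = r ∧ g A = s)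
  have e1 : ∀ inst : DecidablePred fun x : Fin d → ZMod p => f (sp Y hdet x) = r ∧
      g (sp Y hdet x) = s,
      @Finset.filter _ (fun x : Fin d → ZMod p => f (sp Y hdet x) = r ∧
        g (sp Y hdet x) = s) inst univ =
      univ.filter (fun x : Fin d → ZMod p => aeval x P = r ∧
        aeval x Q = s) := fun inst => by
    ext x
    rw [mem_filter, mem_filter, hP, hQ]
  obtain ⟨SN, hSN⟩ : ∃ SN : Finset (SpecialLinearGroup (Fin m) (ZMod p)),
      SN = univ.filter (fun A : SpecialLinearGroup (Fin m) (ZMod p) => f A = r ∧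
        g A = s) := ⟨_, rfl⟩
  have e2 : ∀ inst : DecidablePred fun A : SpecialLinearGroup (Fin m) (ZMod p) =>
      f A = r ∧ g A = s,
      @Finset.filter _ (fun A : SpecialLinearGroup (Fin m) (ZMod p) => f A = r ∧
        g A = s) inst univ = SN := fun inst => by
    rw [hSN]
    congr!
  rw [e1, e2, Fintype.card_fun, ZMod.card, Fintype.card_fin] at h4
  rw [← hSN] at h
  set M : ℝ := ((univ.filter fun x : Fin d → ZMod p => aeval x P = r ∧
        aeval x Q = s).card : ℝ) with hM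
  set N : ℝ := (SN.card : ℝ) with hN
  set G : ℝ := (Fintype.card (SpecialLinearGroup (Fin m) (ZMod p)) : ℝ) with hG
  have hG0 : 0 < G := by rw [hG]; exact_mod_cast Fintype.card_pos
  have hp2 : (2 : ℝ) ≤ p := by exact_mod_cast hpp.two_le
  have hp0 : (0 : ℝ) < p := by linarith
  push_cast at h4
  set D : ℝ := (p : ℝ) ^ d with hD
  have hpd : (0 : ℝ) < D := by positivity
  have hCp : C / (p : ℝ) ^ 2 * p ^ 2 = C := by field_simp
  set ε : ℝ := C / (p : ℝ) ^ 2 with hε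
  have a2 : (p : ℝ) ^ 2 * (G * M) ≤ (p : ℝ) ^ 2 * (N * D + ε * (G * D)) :=
    mul_le_mul_of_nonneg_left h4 (by positivity)
  have a3 : (p : ℝ) ^ 2 * (N * D + ε * (G * D)) = (p : ℝ) ^ 2 * N * D + (ε * p ^ 2) * (G * D) := by
    ring
  rw [a3, hCp] at a2
  have a4 : (p : ℝ) ^ 2 * N * D ≤ K * G * D := mul_le_mul_of_nonneg_right h hpd.le
  refine le_of_mul_le_mul_left ?_ hG0
  calc G * ((p : ℝ) ^ 2 * M) = (p : ℝ) ^ 2 * (G * M) := by ring
    _ ≤ (p : ℝ) ^ 2 * N * D + C * (G * D) := a2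
    _ ≤ K * G * D + C * (G * D) := by linarith
    _ = _ := by ring

end par

/-- finitely many polynomials, and one which is only required not to vanish -/
theorem far' {d : ℕ} {ι : Type} [Fintype ι] (F : ι → MvPolynomial (Fin d) ℤ)
    (hF : ∀ j, ∀ c, F j ≠ C c) (G : MvPolynomial (Fin d) ℤ) (hG : G ≠ 0) :
    ∃ v : Fin d → ℤ, ∃ Z₁ : ℕ, ∀ Z : ℕ, Z₁ ≤ Z → ∀ x : Fin d → ℤ,
      (∀ i, (Z : ℤ) ^ 2 * v i < x i ∧ x i ≤ (Z : ℤ) ^ 2 * v i + Z) →
      (∀ j, 2 * (Z : ℝ) ≤ |((eval x (F j) : ℤ) : ℝ)|) ∧ eval x G ≠ 0 := by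
  classical
  have hF0 : ∀ j, F j ≠ 0 := fun j h => hF j 0 (by rw [h, map_zero])
  obtain ⟨v, hv⟩ : ∃ v : Fin d → ℤ, eval v ((∏ j, homogeneousComponent (F j).totalDegree (F j)) *
      homogeneousComponent G.totalDegree G) ≠ 0 := by
    by_contra hcon
    push Not at hcon
    have h1 : (∏ j, homogeneousComponent (F j).totalDegree (F j)) *
        homogeneousComponent G.totalDegree G = 0 :=
      MvPolynomial.funext fun x => by rw [hcon x, map_zero]
    rcases mul_eq_zero.1 h1 with h1 | h1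
    · rw [Finset.prod_eq_zero_iff] at h1
      obtain ⟨j, -, hj⟩ := h1
      exact top_ne (F j) (hF0 j) hj
    · exact top_ne G hG h1
  rw [map_mul, mul_ne_zero_iff, map_prod, Finset.prod_ne_zero_iff] at hv
  obtain ⟨hv, hvG⟩ := hv
  choose Z₁ hZ₁ using fun j => far_one (F j) (hF j) v (hv j (mem_univ j))
  by_cases hGc : ∀ c, G ≠ C c
  · obtain ⟨Z₂, hZ₂⟩ := far_one G hGc v hvG
    refine ⟨v, ∑ j, Z₁ j + Z₂ + 1, fun Z hZ x hx => ⟨fun j => hZ₁ j Z ?_ x hx, ?_⟩⟩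
    · have := Finset.single_le_sum (f := Z₁) (fun _ _ => Nat.zero_le _) (mem_univ j)
      omega
    · intro h0
      have h1 := hZ₂ Z (by omega) x hx
      rw [h0, Int.cast_zero, abs_zero] at h1
      have h2 : (1 : ℝ) ≤ Z := by exact_mod_cast (by omega : 1 ≤ Z)
      linarith
  · push Not at hGc
    obtain ⟨c, hc⟩ := hGc
    refine ⟨v, ∑ j, Z₁ j, fun Z hZ x hx => ⟨fun j => hZ₁ j Z ?_ x hx, ?_⟩⟩
    · exact (Finset.single_le_sum (f := Z₁) (fun _ _ => Nat.zero_le _) (mem_univ j)).trans hZ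
    · rw [hc, eval_C]
      rintro rfl
      exact hG (by rw [hc, map_zero])

/-- a nonconstant polynomial has zeros modulo arbitrarily large primes -/
theorem zeros_F {d : ℕ} (F : MvPolynomial (Fin d) ℤ) (hF : ∀ c, F ≠ C c) (B : ℕ) :
    ∃ p : ℕ, p.Prime ∧ B < p ∧ ∃ x : Fin d → ℤ, (p : ℤ) ∣ eval x F - 0 := by
  obtain ⟨x₀, hx₀⟩ : ∃ x₀ : Fin d → ℤ, eval x₀ F ≠ 0 := by
    by_contra hcon
    push Not at hcon
    exact hF 0 (MvPolynomial.funext fun x => by rw [hcon x, map_zero, map_zero])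
  obtain ⟨v, Z₁, hfar⟩ := far (ι := Unit) (fun _ => F) (fun _ => hF)
  obtain ⟨a, ha⟩ : ∃ a : ℤ, a = eval x₀ F := ⟨_, rfl⟩
  rw [← ha] at hx₀
  obtain ⟨N, hN⟩ : ∃ N : ℕ, N = a.natAbs * B.factorial := ⟨_, rfl⟩
  have ha1 : 0 < a.natAbs := Int.natAbs_pos.2 hx₀
  have hN0 : 0 < N := by rw [hN]; exact Nat.mul_pos ha1 (Nat.factorial_pos B)
  have haN : a.natAbs ≤ N := by rw [hN]; exact Nat.le_mul_of_pos_right _ (Nat.factorial_pos B)
  obtain ⟨Z, hZ⟩ : ∃ Z : ℕ, Z = Z₁ + N := ⟨_, rfl⟩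
  have hNz : (0 : ℤ) < N := by exact_mod_cast hN0
  obtain ⟨x, hx⟩ : ∃ x : Fin d → ℤ, x = fun i => (Z : ℤ) ^ 2 * v i + 1 +
    (x₀ i - (Z : ℤ) ^ 2 * v i - 1) % N := ⟨_, rfl⟩
  have hbox : ∀ i, (Z : ℤ) ^ 2 * v i < x i ∧ x i ≤ (Z : ℤ) ^ 2 * v i + Z := by
    intro i
    have h1 := Int.emod_nonneg (x₀ i - (Z : ℤ) ^ 2 * v i - 1) hNz.ne'
    have h2 := Int.emod_lt_of_pos (x₀ i - (Z : ℤ) ^ 2 * v i - 1) hNz
    have h3 : (N : ℤ) ≤ Z := by exact_mod_cast (by omega : N ≤ Z)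
    rw [hx]
    constructor
    · simp only
      linarith
    · simp only
      linarith
  have hcong : ∀ i, (N : ℤ) ∣ x i - x₀ i := by
    intro i
    have h1 := Int.mul_ediv_add_emod (x₀ i - (Z : ℤ) ^ 2 * v i - 1) N
    refine ⟨-((x₀ i - (Z : ℤ) ^ 2 * v i - 1) / N), ?_⟩
    rw [hx]
    simp only
    linarith
  have hev : (N : ℤ) ∣ eval x F - a := by
    rw [← ZMod.intCast_zmod_eq_zero_iff_dvd, Int.cast_sub, sub_eq_zero, ha, cast_eval, cast_eval]
    congr 2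
    funext i
    rw [← sub_eq_zero, ← Int.cast_sub, ZMod.intCast_zmod_eq_zero_iff_dvd]
    exact hcong i
  obtain ⟨k, hk⟩ := hev
  obtain ⟨y, hy, hyB⟩ : ∃ y : ℤ, eval x F = a * y ∧ (B.factorial : ℤ) ∣ y - 1 := by
    have hab : ((a.natAbs : ℕ) : ℤ) = a ∨ ((a.natAbs : ℕ) : ℤ) = -a := by
      rcases Int.natAbs_eq a with h | h <;> omega
    rcases hab with h | h
    · refine ⟨1 + B.factorial * k, ?_, ⟨k, by ring⟩⟩
      have : eval x F = a + N * k := by linarith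
      rw [this, hN]
      push_cast
      rw [← Int.natCast_natAbs, h]
      ring
    · refine ⟨1 - B.factorial * k, ?_, ⟨-k, by ring⟩⟩
      have : eval x F = a + N * k := by linarith
      rw [this, hN]
      push_cast
      rw [← Int.natCast_natAbs, h]
      ring
  have hlarge := hfar Z (by omega) x hbox ()
  have hy2 : 2 ≤ y.natAbs := by
    by_contra hcon
    have h1 : y.natAbs ≤ 1 := by omega
    have h2 : (eval x F).natAbs ≤ N := by
      rw [hy, Int.natAbs_mul]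
      calc a.natAbs * y.natAbs ≤ a.natAbs * 1 := Nat.mul_le_mul_left _ h1
        _ ≤ N := by rw [mul_one]; exact haN
    have h3 : |((eval x F : ℤ) : ℝ)| = ((eval x F).natAbs : ℝ) := by
      rw [Nat.cast_natAbs, Int.cast_abs]
    rw [h3] at hlarge
    have h4 : 2 * Z ≤ (eval x F).natAbs := by exact_mod_cast hlarge
    omega
  refine ⟨y.natAbs.minFac, Nat.minFac_prime (by omega), ?_, x, ?_⟩
  · by_contra hcon
    have h1 : y.natAbs.minFac ∣ B.factorial :=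
      (Nat.minFac_prime (by omega : y.natAbs ≠ 1)).dvd_factorial.2 (by omega)
    have h2 : ((y.natAbs.minFac : ℕ) : ℤ) ∣ y := by
      rw [← Int.natCast_dvd_natCast] at *
      exact (Int.natCast_dvd.2 (Nat.minFac_dvd _))
    have h3 : ((y.natAbs.minFac : ℕ) : ℤ) ∣ y - 1 :=
      (Int.natCast_dvd_natCast.2 h1).trans hyB
    have h4 : ((y.natAbs.minFac : ℕ) : ℤ) ∣ 1 := by
      have := dvd_sub h2 h3
      rwa [sub_sub_cancel] at this
    have h5 : y.natAbs.minFac ∣ 1 := by exact_mod_cast h4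
    exact (Nat.minFac_prime (by omega : y.natAbs ≠ 1)).one_lt.ne' (Nat.dvd_one.1 h5)
  · rw [sub_zero, hy]
    exact Dvd.dvd.mul_left (Int.natCast_dvd.2 (Nat.minFac_dvd _)) _

theorem rpow_one' (p : ℕ) (hp : 0 < p) {x C₁ D : ℝ} (h : x * p ≤ C₁ * D) :
    x ≤ C₁ * D * (p : ℝ) ^ (-(1 : ℝ)) := by
  have hp0 : (0 : ℝ) < p := by exact_mod_cast hp
  rw [Real.rpow_neg_one, ← div_eq_mul_inv, le_div_iff₀ hp0]
  exact h

/-- the criterion, in the form used here -/
theorem box {J : Type} [Fintype J] {d : ℕ} (F : J → MvPolynomial (Fin d) ℤ)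
    (hF : ∀ j, ∀ c : ℤ, F j ≠ MvPolynomial.C c)
    (h1 : ∀ j, ∃ C₁ : ℝ, 0 ≤ C₁ ∧ ∃ B : ℕ, ∀ (p : ℕ) [Fact p.Prime], B < p →
      ∀ r : ZMod p, r ≠ 0 →
      |(p : ℝ) * ((univ.filter fun x : Fin d → ZMod p => aeval x (F j) = r).card : ℝ) -
        (p : ℝ) ^ d| * p ≤ C₁ * (p : ℝ) ^ d)
    (h2 : ∀ i j, i ≠ j → ∃ C₁ : ℝ, 0 ≤ C₁ ∧ ∃ B : ℕ, ∀ (p : ℕ) [Fact p.Prime], B < p →
      ∀ r s : ZMod p, r ≠ 0 → s ≠ 0 →
      (p : ℝ) ^ 2 * ((univ.filter fun x : Fin d → ZMod p => aeval x (F i) = r ∧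
        aeval x (F j) = s).card : ℝ) ≤ C₁ * (p : ℝ) ^ d) :
    ∃ c : ℝ, 0 < c ∧ ∃ Z₀ : ℝ, ∀ Z : ℕ, Z₀ ≤ Z → ∀ M : Fin d → ℤ, ∃ x : Fin d → ℤ,
      (∀ i, M i < x i ∧ x i ≤ M i + Z) ∧ ∀ j, ∀ n : ℤ,
        |(n : ℝ) - eval x (F j)| ≤ c * Pool.Agent.H256R2.SC.ff Z →
        ∃ p : ℕ, p.Prime ∧ (p : ℝ) ≤ (Z : ℝ) ^ (1 / 10 : ℝ) ∧ (p : ℤ) ∣ n := by
  classical
  have h2' : ∀ i j, ∃ C₁ : ℝ, 0 ≤ C₁ ∧ ∃ B : ℕ, i ≠ j → ∀ (p : ℕ) [Fact p.Prime], B < p →
      ∀ r s : ZMod p, r ≠ 0 → s ≠ 0 →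
      (p : ℝ) ^ 2 * ((univ.filter fun x : Fin d → ZMod p => aeval x (F i) = r ∧
        aeval x (F j) = s).card : ℝ) ≤ C₁ * (p : ℝ) ^ d := by
    intro i j
    by_cases hij : i = j
    · exact ⟨0, le_rfl, 0, fun h => absurd hij h⟩
    · obtain ⟨C₁, hC₁, B, h⟩ := h2 i j hij
      exact ⟨C₁, hC₁, B, fun _ => h⟩
  choose C₁ hC₁ B₁ hB₁ using h1
  choose C₂ hC₂ B₂ hB₂ using h2'
  obtain ⟨K, hK⟩ : ∃ K : ℝ, K = ∑ j, C₁ j + ∑ i, ∑ j, C₂ i j := ⟨_, rfl⟩
  obtain ⟨B₀, hB₀⟩ : ∃ B₀ : ℕ, B₀ = ∑ j, B₁ j + ∑ i, ∑ j, B₂ i j := ⟨_, rfl⟩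
  have hs1 : 0 ≤ ∑ j, C₁ j := Finset.sum_nonneg fun j _ => hC₁ j
  have hs2 : 0 ≤ ∑ i, ∑ j, C₂ i j :=
    Finset.sum_nonneg fun i _ => Finset.sum_nonneg fun j _ => hC₂ i j
  have hK1 : ∀ j, C₁ j ≤ K := by
    intro j
    have := Finset.single_le_sum (f := C₁) (fun j _ => hC₁ j) (mem_univ j)
    rw [hK]
    linarith
  have hK2 : ∀ i j, C₂ i j ≤ K := by
    intro i j
    have a4 := Finset.single_le_sum (f := fun j => C₂ i j) (fun j _ => hC₂ i j) (mem_univ j)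
    have a5 := Finset.single_le_sum (f := fun i => ∑ j, C₂ i j)
      (fun i _ => Finset.sum_nonneg fun j _ => hC₂ i j) (mem_univ i)
    rw [hK]
    linarith
  have hb1 : ∀ j, B₁ j ≤ B₀ := by
    intro j
    have := Finset.single_le_sum (f := B₁) (fun j _ => Nat.zero_le _) (mem_univ j)
    rw [hB₀]
    omega
  have hb2 : ∀ i j, B₂ i j ≤ B₀ := by
    intro i j
    have a4 := Finset.single_le_sum (f := fun j => B₂ i j) (fun j _ => Nat.zero_le _) (mem_univ j)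
    have a5 := Finset.single_le_sum (f := fun i => ∑ j, B₂ i j)
      (fun i _ => Nat.zero_le _) (mem_univ i)
    rw [hB₀]
    omega
  refine Pool.Agent.Y837.SV.crit3 d F hF (fun _ => {0}) ?_ B₀ K 1 one_pos ?_ ?_
  · intro j r hr B
    rw [mem_singleton] at hr
    rw [hr]
    exact zeros_F (F j) (hF j) B
  · intro p hp hBp j r hr
    have : Fact p.Prime := ⟨hp⟩
    have hr0 : r ≠ 0 := by
      have := hr 0 (mem_singleton_self _)
      simpa using this
    have h3 := hB₁ j p (lt_of_le_of_lt (hb1 j) hBp) r hr0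
    rw [Nat.card_eq_fintype_card, Fintype.card_subtype]
    refine rpow_one' p hp.pos (le_trans ?_ (h3.trans ?_))
    · exact le_of_eq (by congr!)
    · exact mul_le_mul_of_nonneg_right (hK1 j) (by positivity)
  · intro p hp hBp i j hij r s hr hs
    have : Fact p.Prime := ⟨hp⟩
    have hr0 : r ≠ 0 := by
      have := hr 0 (mem_singleton_self _)
      simpa using this
    have hs0 : s ≠ 0 := by
      have := hs 0 (mem_singleton_self _)
      simpa using this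
    have h3 := hB₂ i j hij p (lt_of_le_of_lt (hb2 i j) hBp) r s hr0 hs0
    rw [Nat.card_eq_fintype_card, Fintype.card_subtype]
    refine le_trans ?_ (h3.trans ?_)
    · exact le_of_eq (by congr!)
    · exact mul_le_mul_of_nonneg_right (hK2 i j) (by positivity)

end Pool.Agent.N270.CH
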