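import Pool.Agent.N270.CH.Val

/-! Counting elements of a finite group with a given value of a semi-invariant function. -/

set_option autoImplicit false
set_option linter.unusedSectionVars false

namespace Pool.Agent.N270.CH

open Finset Matrix MvPolynomial

variable {F : Type} [Field F] [Fintype F] [DecidableEq F]

theorem pow_card_le (c : ℕ) (hc : 0 < c) (α r : F) (hr : r ≠ 0) :
    (univ.filter fun u : Fˣ => α = (u : F) ^ c * r).card ≤ c := by
  have h1 : (univ.filter fun u : Fˣ => α = (u : F) ^ c * r).card ≤
      (Polynomial.nthRoots c (α / r)).toFinset.card := by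
    refine Finset.card_le_card_of_injOn (fun u => (u : F)) ?_ ?_
    · intro u hu
      rw [Finset.mem_coe, mem_filter] at hu
      rw [Finset.mem_coe, Multiset.mem_toFinset, Polynomial.mem_nthRoots hc, hu.2]
      field_simp
    · intro u _ v _ huv
      exact Units.ext huv
  exact h1.trans ((Multiset.toFinset_card_le _).trans (Polynomial.card_nthRoots _ _))

theorem npow_card_le (c : ℕ) (hc : 0 < c) (κ : Fˣ) :
    (univ.filter fun u : Fˣ => u ^ c = κ).card ≤ c := by
  have h := pow_card_le c hc (κ : F) 1 one_ne_zero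
  refine le_trans (Finset.card_le_card ?_) h
  intro u hu
  rw [mem_filter] at hu ⊢
  refine ⟨mem_univ _, ?_⟩
  rw [mul_one, ← hu.2]
  simp

theorem zpow_card_le (k : ℤ) (hk : k ≠ 0) (κ : Fˣ) :
    (univ.filter fun u : Fˣ => u ^ k = κ).card ≤ k.natAbs := by
  have hc : 0 < k.natAbs := Int.natAbs_pos.2 hk
  rcases Int.natAbs_eq k with h | h
  · refine le_trans (Finset.card_le_card ?_) (npow_card_le k.natAbs hc κ)
    intro u hu
    rw [mem_filter] at hu ⊢
    refine ⟨mem_univ _, ?_⟩
    rw [← hu.2]
    conv_rhs => rw [h]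
    rw [zpow_natCast]
  · refine le_trans (Finset.card_le_card ?_) (npow_card_le k.natAbs hc κ⁻¹)
    intro u hu
    rw [mem_filter] at hu ⊢
    refine ⟨mem_univ _, ?_⟩
    rw [← hu.2]
    conv_rhs => rw [h]
    rw [_root_.zpow_neg, zpow_natCast, inv_inv]

section grp

variable {G : Type} [Group G] [Fintype G] [DecidableEq G]

theorem scale_count (f : G → F) (τ : Fˣ → G) (c : ℕ)
    (hf : ∀ g u, f (g * τ u) = (u : F) ^ c * f g) (r : F) :
    Fintype.card Fˣ * (univ.filter fun g => f g = r).card =
      ∑ g, (univ.filter fun u : Fˣ => f g = (u : F) ^ c * r).card := by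
  have h1 : ∀ u : Fˣ, (univ.filter fun g => f g = (u : F) ^ c * r).card =
      (univ.filter fun g => f g = r).card := by
    intro u
    symm
    refine Finset.card_equiv (Equiv.mulRight (τ u)) fun g => ?_
    rw [mem_filter, mem_filter, Equiv.coe_mulRight, hf]
    have hu : (u : F) ^ c ≠ 0 := pow_ne_zero _ u.ne_zero
    constructor
    · rintro ⟨_, h⟩
      exact ⟨mem_univ _, by rw [h]⟩
    · rintro ⟨_, h⟩
      exact ⟨mem_univ _, mul_left_cancel₀ hu h⟩
  have h2 : ∑ g, (univ.filter fun u : Fˣ => f g = (u : F) ^ c * r).card =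
      ∑ u : Fˣ, (univ.filter fun g => f g = (u : F) ^ c * r).card := by
    simp_rw [Finset.card_filter]
    exact Finset.sum_comm
  rw [h2, Finset.sum_congr rfl (fun u _ => h1 u), Finset.sum_const, Finset.card_univ, smul_eq_mul]

theorem content_one (f : G → F) (τ : Fˣ → G) (hf : ∀ g u, f (g * τ u) = (u : F) ^ 1 * f g) (r : F)
    (hr : r ≠ 0) :
    Fintype.card Fˣ * (univ.filter fun g => f g = r).card + (univ.filter fun g => f g = 0).card =
      Fintype.card G := by
  rw [scale_count f τ 1 hf r]
  have h1 : ∀ g, (univ.filter fun u : Fˣ => f g = (u : F) ^ 1 * r).card =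
      if f g = 0 then 0 else 1 := by
    intro g
    split_ifs with h
    · rw [Finset.card_eq_zero, Finset.filter_eq_empty_iff]
      intro u _ hu
      rw [h, pow_one] at hu
      exact mul_ne_zero u.ne_zero hr hu.symm
    · rw [Finset.card_eq_one]
      refine ⟨Units.mk0 (f g / r) (div_ne_zero h hr), ?_⟩
      ext u
      rw [mem_filter, mem_singleton, pow_one]
      constructor
      · rintro ⟨_, hu⟩
        apply Units.ext
        rw [Units.val_mk0, hu]
        field_simp
      · rintro rfl
        refine ⟨mem_univ _, ?_⟩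
        rw [Units.val_mk0]
        field_simp
  rw [Finset.sum_congr rfl (fun g _ => h1 g), ← Finset.card_univ]
  have h2 : ∑ g, (if f g = 0 then 0 else 1) = (univ.filter fun g => ¬ f g = 0).card := by
    rw [Finset.card_filter]
    exact Finset.sum_congr rfl fun g _ => by split_ifs <;> rfl
  rw [h2, add_comm]
  exact Finset.card_filter_add_card_filter_not (s := (univ : Finset G)) (fun g => f g = 0)

/-- the number of pairs `(t, u)` with `f (g x_t) = u ^ c r` -/
def W (f : G → F) (x : F → G) (c : ℕ) (r : F) (g : G) : ℕ :=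
  ∑ t : F, (univ.filter fun u : Fˣ => f (g * x t) = (u : F) ^ c * r).card

theorem avg (h : G → ℕ) (x : F → G) :
    Fintype.card F * ∑ g, h g = ∑ g, ∑ t : F, h (g * x t) := by
  rw [Finset.sum_comm]
  have h1 : ∀ t : F, ∑ g, h (g * x t) = ∑ g, h g := fun t =>
    Fintype.sum_equiv (Equiv.mulRight (x t)) _ _ (fun g => rfl)
  rw [Finset.sum_congr rfl (fun t _ => h1 t), Finset.sum_const, Finset.card_univ, smul_eq_mul]

theorem W_le (f : G → F) (x : F → G) (c : ℕ) (hc : 0 < c) (r : F) (hr : r ≠ 0) (g : G) :
    W f x c r g ≤ c * Fintype.card F := by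
  rw [W]
  calc ∑ t : F, (univ.filter fun u : Fˣ => f (g * x t) = (u : F) ^ c * r).card ≤ ∑ _t : F, c :=
        Finset.sum_le_sum fun t _ => pow_card_le c hc _ r hr
    _ = c * Fintype.card F := by rw [Finset.sum_const, Finset.card_univ, smul_eq_mul, mul_comm]

theorem W_lin (f : G → F) (x : F → G) (c : ℕ) (r : F) (g : G) (Q : F) (hQ : Q ≠ 0)
    (h : ∀ t, f (g * x t) = f g + t * Q) : W f x c r g = Fintype.card Fˣ := by
  rw [W]
  have h2 : ∑ t : F, (univ.filter fun u : Fˣ => f (g * x t) = (u : F) ^ c * r).card =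
      ∑ u : Fˣ, (univ.filter fun t : F => f (g * x t) = (u : F) ^ c * r).card := by
    simp_rw [Finset.card_filter]
    exact Finset.sum_comm
  rw [h2]
  have h1 : ∀ u : Fˣ, (univ.filter fun t : F => f (g * x t) = (u : F) ^ c * r).card = 1 := by
    intro u
    rw [Finset.card_eq_one]
    refine ⟨((u : F) ^ c * r - f g) / Q, ?_⟩
    ext t
    rw [mem_filter, mem_singleton, h]
    constructor
    · rintro ⟨_, ht⟩
      rw [← ht]
      field_simp
      ring
    · rintro rfl
      refine ⟨mem_univ _, ?_⟩
      field_simp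
      ring
  rw [Finset.sum_congr rfl (fun u _ => h1 u), Finset.sum_const, Finset.card_univ, smul_eq_mul,
    mul_one]

/-- the final count from the averages -/
theorem final_count (f : G → F) (τ : Fˣ → G) (x : F → G) (c : ℕ) (hc : 0 < c)
    (hf : ∀ g u, f (g * τ u) = (u : F) ^ c * f g) (r : F) (hr : r ≠ 0) (bad : G → Prop)
    [DecidablePred bad]
    (hgood : ∀ g, ¬ bad g → |(W f x c r g : ℝ) - Fintype.card F| ≤ 3) :
    |(Fintype.card F : ℝ) * (Fintype.card Fˣ * ((univ.filter fun g => f g = r).card : ℝ) -
        Fintype.card G)| ≤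
      3 * Fintype.card G + (c + 1) * (Fintype.card F * ((univ.filter bad).card : ℝ)) := by
  have h1 := scale_count f τ c hf r
  have h2 := avg (fun g => (univ.filter fun u : Fˣ => f g = (u : F) ^ c * r).card) x
  rw [← h1] at h2
  have h3 : ∀ g, ∑ t : F, (fun g => (univ.filter fun u : Fˣ => f g = (u : F) ^ c * r).card) (g * x t) =
      W f x c r g := fun g => rfl
  rw [Finset.sum_congr rfl (fun g _ => h3 g)] at h2
  have h4 : (Fintype.card F : ℝ) * (Fintype.card Fˣ * ((univ.filter fun g => f g = r).card : ℝ)) =
      ∑ g, (W f x c r g : ℝ) := by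
    have := congrArg (fun n : ℕ => (n : ℝ)) h2
    push_cast at this
    exact this
  have h5 : (Fintype.card F : ℝ) * Fintype.card G = ∑ _g : G, (Fintype.card F : ℝ) := by
    rw [Finset.sum_const, Finset.card_univ, nsmul_eq_mul, mul_comm]
  rw [mul_sub, h4, h5, ← Finset.sum_sub_distrib]
  refine (Finset.abs_sum_le_sum_abs _ _).trans ?_
  have h6 : ∀ g, |(W f x c r g : ℝ) - Fintype.card F| ≤
      3 + if bad g then ((c : ℝ) + 1) * Fintype.card F else 0 := by
    intro g
    split_ifs with hb
    · have h7 : (W f x c r g : ℝ) ≤ c * Fintype.card F := by exact_mod_cast W_le f x c hc r hr g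
      have h8 : (0 : ℝ) ≤ W f x c r g := Nat.cast_nonneg _
      have h9 : (0 : ℝ) ≤ c * Fintype.card F := by positivity
      have h10 : (0 : ℝ) ≤ Fintype.card F := by positivity
      rw [abs_le]
      constructor <;> nlinarith
    · rw [add_zero]
      exact hgood g hb
  refine (Finset.sum_le_sum fun g _ => h6 g).trans (le_of_eq ?_)
  rw [Finset.sum_add_distrib, Finset.sum_const, Finset.card_univ, nsmul_eq_mul, ← Finset.sum_filter,
    Finset.sum_const, nsmul_eq_mul]
  ring

/-- orbits of a family of translations -/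
theorem orbit_count {T : Type} [Fintype T] (τ : T → G) (S V : G → Prop) [DecidablePred S]
    [DecidablePred V] (K : ℕ) (h1 : ∀ g, S g → ∀ t, V (g * τ t))
    (h2 : ∀ g, V g → (univ.filter fun t : T => S (g * (τ t)⁻¹)).card ≤ K) :
    (univ.filter S).card * Fintype.card T ≤ K * (univ.filter V).card := by
  have e1 : (univ.filter S).card * Fintype.card T =
      ∑ t : T, (univ.filter fun g => S (g * (τ t)⁻¹)).card := by
    have : ∀ t : T, (univ.filter fun g => S (g * (τ t)⁻¹)).card = (univ.filter S).card := by
      intro t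
      refine Finset.card_equiv (Equiv.mulRight (τ t)⁻¹) fun g => ?_
      rw [mem_filter, mem_filter, Equiv.coe_mulRight]
      simp
    rw [Finset.sum_congr rfl (fun t _ => this t), Finset.sum_const, Finset.card_univ, smul_eq_mul,
      mul_comm]
  have e2 : ∑ t : T, (univ.filter fun g => S (g * (τ t)⁻¹)).card =
      ∑ g, (univ.filter fun t : T => S (g * (τ t)⁻¹)).card := by
    simp_rw [Finset.card_filter]
    exact Finset.sum_comm
  rw [e1, e2]
  have e3 : ∀ g, (univ.filter fun t : T => S (g * (τ t)⁻¹)).card ≤ if V g then K else 0 := by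
    intro g
    split_ifs with hV
    · exact h2 g hV
    · rw [Nat.le_zero, Finset.card_eq_zero, Finset.filter_eq_empty_iff]
      intro t _ ht
      apply hV
      have := h1 _ ht t
      rwa [inv_mul_cancel_right] at this
  refine (Finset.sum_le_sum fun g _ => e3 g).trans (le_of_eq ?_)
  rw [← Finset.sum_filter, Finset.sum_const, smul_eq_mul, mul_comm]

end grp

/-- `t² - D` takes square values `|F| - 1` times, counted with the square roots -/
theorem hyperbola (h2 : (2 : F) ≠ 0) (D : F) (hD : D ≠ 0) :
    (univ.filter fun a : F × F => a.2 ^ 2 = a.1 ^ 2 - D).card = Fintype.card Fˣ := by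
  rw [← Finset.card_univ]
  symm
  refine Finset.card_bij' (fun (v : Fˣ) _ => ((D / v + v) / 2, (D / v - v) / 2))
    (fun a _ => if h : a.1 - a.2 = 0 then 1 else Units.mk0 (a.1 - a.2) h) ?_ ?_ ?_ ?_
  · intro v _
    rw [mem_filter]
    refine ⟨mem_univ _, ?_⟩
    have hv := v.ne_zero
    field_simp
    ring
  · intro a _
    exact mem_univ _
  · intro v _
    have hv := v.ne_zero
    have e : (D / (v : F) + v) / 2 - (D / v - v) / 2 = v := by
      field_simp
      ring
    simp only [e]
    rw [dif_neg hv]
    exact Units.ext rfl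
  · intro a ha
    rw [mem_filter] at ha
    have h := ha.2
    have h3 : (a.1 - a.2) * (a.1 + a.2) = D := by linear_combination -h
    have h4 : a.1 - a.2 ≠ 0 := by
      intro h5
      rw [h5, zero_mul] at h3
      exact hD h3.symm
    have h5 : D / (a.1 - a.2) = a.1 + a.2 := by
      rw [← h3]
      field_simp
    rw [dif_neg h4, Units.val_mk0, h5]
    refine Prod.ext ?_ ?_
    · change (a.1 + a.2 + (a.1 - a.2)) / 2 = a.1
      field_simp
      ring
    · change (a.1 + a.2 - (a.1 - a.2)) / 2 = a.2
      field_simp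
      ring

theorem sum_sq_sub (hF : ringChar F ≠ 2) (D : F) (hD : D ≠ 0) :
    ∑ t : F, quadraticChar F (t ^ 2 - D) = -1 := by
  have h2 : (2 : F) ≠ 0 := Ring.two_ne_zero hF
  have h1 := hyperbola h2 D hD
  have h3 : (univ.filter fun a : F × F => a.2 ^ 2 = a.1 ^ 2 - D).card =
      ∑ t : F, (univ.filter fun s : F => s ^ 2 = t ^ 2 - D).card := by
    rw [Finset.card_filter, ← Finset.univ_product_univ, Finset.sum_product]
    exact Finset.sum_congr rfl fun t _ => by rw [Finset.card_filter]
  have h4 : ∀ y : F, ((univ.filter fun s : F => s ^ 2 = y).card : ℤ) = quadraticChar F y + 1 := by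
    intro y
    rw [← quadraticChar_card_sqrts hF y]
    congr 2
    ext s
    simp
  rw [h1] at h3
  have h5 := congrArg (fun n : ℕ => (n : ℤ)) h3
  push_cast at h5
  rw [Finset.sum_congr rfl (fun t _ => h4 (t ^ 2 - D)), Finset.sum_add_distrib, Finset.sum_const,
    Finset.card_univ, nsmul_eq_mul, mul_one] at h5
  have h6 : (Fintype.card Fˣ : ℤ) = Fintype.card F - 1 := by
    rw [Fintype.card_units, Nat.cast_sub Fintype.card_pos]
    simp
  rw [h6] at h5
  linarith

/-- character sums of quadratic polynomials -/
theorem sum_quad (hF : ringChar F ≠ 2) (a b c : F) (hd : b ^ 2 - 4 * c * a ≠ 0) :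
    |∑ t : F, quadraticChar F (c + t * b + t ^ 2 * a)| ≤ 1 := by
  have h2 : (2 : F) ≠ 0 := Ring.two_ne_zero hF
  by_cases ha : a = 0
  · subst ha
    have hb : b ≠ 0 := by
      rintro rfl
      apply hd
      ring
    have e : ∑ t : F, quadraticChar F (c + t * b + t ^ 2 * 0) = ∑ t : F, quadraticChar F t := by
      refine Fintype.sum_bijective (fun t => c + t * b) ?_ _ _ (fun t => by simp)
      constructor
      · intro t t' h
        exact mul_right_cancel₀ hb (add_left_cancel h)
      · intro y
        refine ⟨(y - c) / b, ?_⟩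
        simp only
        field_simp
        ring
    rw [e, quadraticChar_sum_zero hF]
    simp
  · have h4 : (4 : F) * a ≠ 0 := by
      have : (4 : F) = 2 * 2 := by norm_num
      rw [this]
      exact mul_ne_zero (mul_ne_zero h2 h2) ha
    have e1 : ∀ t : F, quadraticChar F (4 * a) * quadraticChar F (c + t * b + t ^ 2 * a) =
        quadraticChar F ((2 * a * t + b) ^ 2 - (b ^ 2 - 4 * c * a)) := by
      intro t
      rw [← map_mul]
      congr 1
      ring
    have e2 : ∑ t : F, quadraticChar F ((2 * a * t + b) ^ 2 - (b ^ 2 - 4 * c * a)) =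
        ∑ t : F, quadraticChar F (t ^ 2 - (b ^ 2 - 4 * c * a)) := by
      refine Fintype.sum_bijective (fun t => 2 * a * t + b) ?_ _ _ (fun t => rfl)
      constructor
      · intro t t' h
        exact mul_left_cancel₀ (mul_ne_zero h2 ha) (add_right_cancel h)
      · intro y
        refine ⟨(y - b) / (2 * a), ?_⟩
        simp only
        field_simp
        ring
    have e3 : quadraticChar F (4 * a) * ∑ t : F, quadraticChar F (c + t * b + t ^ 2 * a) = -1 := by
      rw [Finset.mul_sum, Finset.sum_congr rfl (fun t _ => e1 t), e2, sum_sq_sub hF _ hd]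
    have e4 : |quadraticChar F (4 * a)| = 1 := by
      rcases quadraticChar_dichotomy h4 with h | h <;> rw [h] <;> simp
    have e5 := congrArg abs e3
    rw [abs_mul, e4, one_mul] at e5
    rw [e5]
    simp

/-- the number of roots of a quadratic polynomial with nonzero discriminant -/
theorem roots_quad (a b c : F) (hd : b ^ 2 - 4 * c * a ≠ 0) :
    (univ.filter fun t : F => c + t * b + t ^ 2 * a = 0).card ≤ 2 := by
  classical
  obtain ⟨P, hP⟩ : ∃ P : Polynomial F, P = Polynomial.C c + Polynomial.X * Polynomial.C b +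
      Polynomial.X ^ 2 * Polynomial.C a := ⟨_, rfl⟩
  have hP0 : P ≠ 0 := by
    intro h
    have hc : P.coeff 0 = c := by rw [hP]; simp
    have hb : P.coeff 1 = b := by rw [hP]; simp [Polynomial.coeff_X_pow, Polynomial.coeff_C]
    rw [h, Polynomial.coeff_zero] at hc hb
    apply hd
    rw [← hc, ← hb]
    ring
  have h1 : (univ.filter fun t : F => c + t * b + t ^ 2 * a = 0) ⊆ P.roots.toFinset := by
    intro t ht
    rw [mem_filter] at ht
    rw [Multiset.mem_toFinset, Polynomial.mem_roots hP0, Polynomial.IsRoot.def, hP]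
    simp only [Polynomial.eval_add, Polynomial.eval_mul, Polynomial.eval_pow, Polynomial.eval_X,
      Polynomial.eval_C]
    exact ht.2
  refine (Finset.card_le_card h1).trans ((Multiset.toFinset_card_le _).trans
    ((Polynomial.card_roots' P).trans ?_))
  rw [hP]
  compute_degree

theorem W_quad {G : Type} [Group G] (hF : ringChar F ≠ 2) (f : G → F)
    (x : F → G) (r : F) (hr : r ≠ 0) (g : G) (b a : F) (hd : b ^ 2 - 4 * f g * a ≠ 0)
    (h : ∀ t, f (g * x t) = f g + t * b + t ^ 2 * a) :
    |(∑ t : F, (univ.filter fun u : Fˣ => f (g * x t) = (u : F) ^ 2 * r).card : ℝ) -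
      Fintype.card F| ≤ 3 := by
  have h4 : ∀ y : F, ((univ.filter fun s : F => s ^ 2 = y).card : ℤ) = quadraticChar F y + 1 := by
    intro y
    rw [← quadraticChar_card_sqrts hF y]
    congr 2
    ext s
    simp
  have hr2 : quadraticChar F r * quadraticChar F r = 1 := by
    rw [← sq]
    exact quadraticChar_sq_one hr
  have h5 : ∀ y : F, ((univ.filter fun u : Fˣ => y = (u : F) ^ 2 * r).card : ℤ) =
      quadraticChar F r * quadraticChar F y + 1 - if y = 0 then 1 else 0 := by
    intro y
    by_cases hy : y = 0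
    · rw [if_pos hy, hy]
      have : (univ.filter fun u : Fˣ => (0 : F) = (u : F) ^ 2 * r) = ∅ := by
        rw [Finset.filter_eq_empty_iff]
        intro u _ hu
        exact mul_ne_zero (pow_ne_zero 2 u.ne_zero) hr hu.symm
      rw [this]
      simp
    · rw [if_neg hy, sub_zero]
      have e1 : quadraticChar F r * quadraticChar F y = quadraticChar F (y / r) := by
        have e2 : y = (y / r) * r := by field_simp
        conv_lhs => rw [e2]
        rw [map_mul, mul_comm (quadraticChar F (y / r)), ← mul_assoc, hr2, one_mul]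
      rw [e1, ← h4]
      congr 1
      refine Finset.card_bij (fun u _ => (u : F)) ?_ ?_ ?_
      · intro u hu
        rw [mem_filter] at hu ⊢
        refine ⟨mem_univ _, ?_⟩
        rw [hu.2]
        field_simp
      · intro u _ v _ huv
        exact Units.ext huv
      · intro s hs
        rw [mem_filter] at hs
        have hs0 : s ≠ 0 := by
          rintro rfl
          have h6 := hs.2
          rw [zero_pow two_ne_zero] at h6
          exact div_ne_zero hy hr h6.symm
        refine ⟨Units.mk0 s hs0, ?_, rfl⟩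
        rw [mem_filter]
        refine ⟨mem_univ _, ?_⟩
        rw [Units.val_mk0, hs.2]
        field_simp
  have h6 : (∑ t : F, ((univ.filter fun u : Fˣ => f (g * x t) = (u : F) ^ 2 * r).card : ℤ)) =
      quadraticChar F r * (∑ t : F, quadraticChar F (f g + t * b + t ^ 2 * a)) + Fintype.card F -
        ((univ.filter fun t : F => f g + t * b + t ^ 2 * a = 0).card : ℤ) := by
    have e1 : ∀ t : F, ((univ.filter fun u : Fˣ => f (g * x t) = (u : F) ^ 2 * r).card : ℤ) =
        quadraticChar F r * quadraticChar F (f g + t * b + t ^ 2 * a) + 1 -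
          if f g + t * b + t ^ 2 * a = 0 then 1 else 0 := by
      intro t
      rw [h5, h]
    rw [Finset.sum_congr rfl (fun t _ => e1 t), Finset.sum_sub_distrib, Finset.sum_add_distrib,
      ← Finset.mul_sum, Finset.sum_const, Finset.card_univ, nsmul_eq_mul, mul_one,
      Finset.card_filter]
    push_cast
    rfl
  have h7 := sum_quad hF a b (f g) hd
  have h8 := roots_quad a b (f g) hd
  have h9 : |quadraticChar F r| = 1 := by
    rcases quadraticChar_dichotomy hr with h | h <;> rw [h] <;> simp
  have h10 : |(∑ t : F, ((univ.filter fun u : Fˣ => f (g * x t) = (u : F) ^ 2 * r).card : ℤ)) -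
      Fintype.card F| ≤ 3 := by
    rw [h6]
    have e1 : |quadraticChar F r * (∑ t : F, quadraticChar F (f g + t * b + t ^ 2 * a))| ≤ 1 := by
      rw [abs_mul, h9, one_mul]
      exact h7
    have e2 : ((univ.filter fun t : F => f g + t * b + t ^ 2 * a = 0).card : ℤ) ≤ 2 := by
      exact_mod_cast h8
    have e3 : (0 : ℤ) ≤ ((univ.filter fun t : F => f g + t * b + t ^ 2 * a = 0).card : ℤ) :=
      Nat.cast_nonneg _
    rw [abs_le] at e1 ⊢
    constructor <;> linarith [e1.1, e1.2]
  have h11 := (Int.cast_le (R := ℝ)).2 h10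
  push_cast at h11
  exact h11

end Pool.Agent.N270.CH
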