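import Pool.Agent.N270.CH.Cnt
import Pool.Agent.R433.SL.Count

/-! Semi-invariant functions on the special linear group of a finite field. -/

set_option autoImplicit false
set_option linter.unusedSectionVars false

namespace Pool.Agent.N270.CH

open Finset Matrix MvPolynomial
open Pool.Agent.R433.SL (sp Unif Low surj eps_small zero_bd low_count low_upper)

section grp

variable {m : ℕ} {F : Type} [Field F] [Fintype F] [DecidableEq F]

theorem prod_zpow_sum (u : Fˣ) (c : Fin m → ℤ) : ∏ b, u ^ c b = u ^ ∑ b, c b := by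
  classical
  have h : ∀ s : Finset (Fin m), ∏ b ∈ s, u ^ c b = u ^ ∑ b ∈ s, c b := by
    intro s
    induction s using Finset.induction_on with
    | empty => simp
    | insert a s ha ih => rw [Finset.prod_insert ha, Finset.sum_insert ha, ih, _root_.zpow_add]
  exact h univ

/-- an element of the diagonal torus -/
def tor (c : Fin m → ℤ) (hc : ∑ b, c b = 0) (u : Fˣ) : SpecialLinearGroup (Fin m) F :=
  ⟨diagonal (fun b => ((u ^ c b : Fˣ) : F)), by
    rw [det_diagonal, ← Units.coe_prod, prod_zpow_sum, hc, _root_.zpow_zero, Units.val_one]⟩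

/-- a transvection -/
def tr (a b : Fin m) (hab : a ≠ b) (t : F) : SpecialLinearGroup (Fin m) F :=
  ⟨transvection a b t, det_transvection_of_ne a b hab t⟩

/-- the function on the group -/
noncomputable def fn (φ : MvPolynomial (Fin m × Fin m) ℤ) (N : Matrix (Fin m) (Fin m) F)
    (g : SpecialLinearGroup (Fin m) F) : F := val φ (N * g.1)

theorem fn_tor {w : Fin m → ℕ} {φ : MvPolynomial (Fin m × Fin m) ℤ} (h : ColHom w φ)
    (N : Matrix (Fin m) (Fin m) F) (g : SpecialLinearGroup (Fin m) F) (c : Fin m → ℤ)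
    (hc : ∑ b, c b = 0) (u : Fˣ) :
    fn φ N (g * tor c hc u) = ((u ^ (∑ b, c b * (w b : ℤ)) : Fˣ) : F) * fn φ N g := by
  change val φ (N * (g.1 * diagonal (fun b => ((u ^ c b : Fˣ) : F)))) = _ * val φ (N * g.1)
  rw [← Matrix.mul_assoc, val_diag h]
  congr 1
  rw [← prod_zpow_sum, Units.coe_prod]
  refine Finset.prod_congr rfl fun b _ => ?_
  rw [_root_.zpow_mul, zpow_natCast, Units.val_pow_eq_pow_val]

theorem fn_tor_nat {w : Fin m → ℕ} {φ : MvPolynomial (Fin m × Fin m) ℤ} (h : ColHom w φ)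
    (N : Matrix (Fin m) (Fin m) F) (g : SpecialLinearGroup (Fin m) F) (c : Fin m → ℤ)
    (hc : ∑ b, c b = 0) (k : ℕ) (hk : ∑ b, c b * (w b : ℤ) = k) (u : Fˣ) :
    fn φ N (g * tor c hc u) = (u : F) ^ k * fn φ N g := by
  rw [fn_tor h, hk, zpow_natCast, Units.val_pow_eq_pow_val]

theorem fn_tr_lin {w : Fin m → ℕ} {φ : MvPolynomial (Fin m × Fin m) ℤ} (h : ColHom w φ)
    (N : Matrix (Fin m) (Fin m) F) {a b : Fin m} (hab : a ≠ b) (hb : w b = 1)
    (g : SpecialLinearGroup (Fin m) F) (t : F) :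
    fn φ N (g * tr a b hab t) = fn φ N g + t * val φ (rep a b (N * g.1)) := by
  change val φ (N * (g.1 * transvection a b t)) = val φ (N * g.1) + _
  rw [← Matrix.mul_assoc]
  exact val_lin h hb _ t

theorem fn_tr_quad {w : Fin m → ℕ} {φ : MvPolynomial (Fin m × Fin m) ℤ} (h : ColHom w φ)
    (N : Matrix (Fin m) (Fin m) F) {a b : Fin m} (hab : a ≠ b) (hb : w b = 2)
    (g : SpecialLinearGroup (Fin m) F) (t : F) :
    fn φ N (g * tr a b hab t) = fn φ N g +
      t * (val φ (add a b (N * g.1)) - fn φ N g - val φ (rep a b (N * g.1))) +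
      t ^ 2 * val φ (rep a b (N * g.1)) := by
  change val φ (N * (g.1 * transvection a b t)) = val φ (N * g.1) +
    t * (val φ (add a b (N * g.1)) - val φ (N * g.1) - val φ (rep a b (N * g.1))) +
      t ^ 2 * val φ (rep a b (N * g.1))
  rw [← Matrix.mul_assoc]
  exact val_quad h hb _ t

/-- equidistribution of the nonzero values -/
def Equi1 (f : SpecialLinearGroup (Fin m) F → F) (κ : ℝ) : Prop := ∀ r : F, r ≠ 0 →
  |(Fintype.card F : ℝ) * (Fintype.card Fˣ * ((univ.filter fun g => f g = r).card : ℝ) -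
    Fintype.card (SpecialLinearGroup (Fin m) F))| ≤ κ * Fintype.card (SpecialLinearGroup (Fin m) F)

theorem equi_one {w : Fin m → ℕ} {φ : MvPolynomial (Fin m × Fin m) ℤ} (h : ColHom w φ)
    (N : Matrix (Fin m) (Fin m) F) (c : Fin m → ℤ) (hc : ∑ b, c b = 0)
    (hk : ∑ b, c b * (w b : ℤ) = 1) (K : ℝ)
    (hz : (Fintype.card F : ℝ) * ((univ.filter fun g => fn φ N g = 0).card : ℝ) ≤
      K * Fintype.card (SpecialLinearGroup (Fin m) F)) : Equi1 (fn φ N) K := by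
  intro r hr
  have h1 := content_one (fn φ N) (tor c hc) (fun g u => fn_tor_nat h N g c hc 1 hk u) r hr
  have h2 : (Fintype.card Fˣ : ℝ) * ((univ.filter fun g => fn φ N g = r).card : ℝ) -
      Fintype.card (SpecialLinearGroup (Fin m) F) =
      -((univ.filter fun g => fn φ N g = 0).card : ℝ) := by
    rw [← h1]
    push_cast
    ring
  rw [h2, mul_neg, abs_neg, abs_of_nonneg (by positivity)]
  exact hz

theorem equi_lin {w : Fin m → ℕ} {φ : MvPolynomial (Fin m × Fin m) ℤ} (h : ColHom w φ)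
    (N : Matrix (Fin m) (Fin m) F) (c : Fin m → ℤ) (hc : ∑ b, c b = 0) (k : ℕ) (hk0 : 0 < k)
    (hk : ∑ b, c b * (w b : ℤ) = k) {a b : Fin m} (hab : a ≠ b) (hb : w b = 1) (K : ℝ)
    (hz : (Fintype.card F : ℝ) * ((univ.filter fun g : SpecialLinearGroup (Fin m) F =>
      val φ (rep a b (N * g.1)) = 0).card : ℝ) ≤
      K * Fintype.card (SpecialLinearGroup (Fin m) F)) : Equi1 (fn φ N) (3 + (k + 1) * K) := by
  intro r hr
  refine (final_count (fn φ N) (tor c hc) (tr a b hab) k hk0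
    (fun g u => fn_tor_nat h N g c hc k hk u) r hr
    (fun g : SpecialLinearGroup (Fin m) F => val φ (rep a b (N * g.1)) = 0) ?_).trans ?_
  · intro g hg
    rw [W_lin (fn φ N) (tr a b hab) k r g _ hg (fun t => fn_tr_lin h N hab hb g t)]
    have h6 : (Fintype.card Fˣ : ℝ) = Fintype.card F - 1 := by
      rw [Fintype.card_units, Nat.cast_sub Fintype.card_pos]
      simp
    rw [h6]
    have : (Fintype.card F : ℝ) - 1 - Fintype.card F = -1 := by ring
    rw [this]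
    norm_num
  · have h7 : (0 : ℝ) ≤ (k : ℝ) + 1 := by positivity
    nlinarith [mul_le_mul_of_nonneg_left hz h7]

theorem equi_quad {w : Fin m → ℕ} {φ : MvPolynomial (Fin m × Fin m) ℤ} (h : ColHom w φ)
    (hF : ringChar F ≠ 2)
    (N : Matrix (Fin m) (Fin m) F) (c : Fin m → ℤ) (hc : ∑ b, c b = 0)
    (hk : ∑ b, c b * (w b : ℤ) = 2) {a b : Fin m} (hab : a ≠ b) (hb : w b = 2) (K : ℝ)
    (hz : (Fintype.card F : ℝ) * ((univ.filter fun g : SpecialLinearGroup (Fin m) F =>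
      disc φ a b (N * g.1) = 0).card : ℝ) ≤
      K * Fintype.card (SpecialLinearGroup (Fin m) F)) : Equi1 (fn φ N) (3 + 3 * K) := by
  intro r hr
  refine (final_count (fn φ N) (tor c hc) (tr a b hab) 2 two_pos
    (fun g u => fn_tor_nat h N g c hc 2 (by exact_mod_cast hk) u) r hr
    (fun g : SpecialLinearGroup (Fin m) F => disc φ a b (N * g.1) = 0) ?_).trans ?_
  · intro g hg
    have h1 := W_quad hF (fn φ N) (tr a b hab) r hr g
      (val φ (add a b (N * g.1)) - fn φ N g - val φ (rep a b (N * g.1)))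
      (val φ (rep a b (N * g.1))) hg (fun t => fn_tr_quad h N hab hb g t)
    rw [W]
    push_cast
    exact h1
  · push_cast
    nlinarith [hz]

theorem card_units_real : (Fintype.card Fˣ : ℝ) = Fintype.card F - 1 := by
  rw [Fintype.card_units, Nat.cast_sub Fintype.card_pos]
  simp

/-- the pair bound from two independent cocharacters -/
theorem pair_indep {w w' : Fin m → ℕ} {φ φ' : MvPolynomial (Fin m × Fin m) ℤ} (h : ColHom w φ)
    (h' : ColHom w' φ') (N : Matrix (Fin m) (Fin m) F) (c c' : Fin m → ℤ) (hc : ∑ b, c b = 0)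
    (hc' : ∑ b, c' b = 0)
    (hD : (∑ b, c b * (w b : ℤ)) * (∑ b, c' b * (w' b : ℤ)) -
      (∑ b, c' b * (w b : ℤ)) * (∑ b, c b * (w' b : ℤ)) ≠ 0) (r s : F) (hr : r ≠ 0) (hs : s ≠ 0) :
    (univ.filter fun g => fn φ N g = r ∧ fn φ' N g = s).card *
      (Fintype.card Fˣ * Fintype.card Fˣ) ≤
      ((∑ b, c b * (w b : ℤ)) * (∑ b, c' b * (w' b : ℤ)) -
      (∑ b, c' b * (w b : ℤ)) * (∑ b, c b * (w' b : ℤ))).natAbs ^ 2 *
        Fintype.card (SpecialLinearGroup (Fin m) F) := by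
  classical
  obtain ⟨a₁, ha₁⟩ : ∃ a₁ : ℤ, a₁ = ∑ b, c b * (w b : ℤ) := ⟨_, rfl⟩
  obtain ⟨a₂, ha₂⟩ : ∃ a₂ : ℤ, a₂ = ∑ b, c' b * (w b : ℤ) := ⟨_, rfl⟩
  obtain ⟨b₁, hb₁⟩ : ∃ b₁ : ℤ, b₁ = ∑ b, c b * (w' b : ℤ) := ⟨_, rfl⟩
  obtain ⟨b₂, hb₂⟩ : ∃ b₂ : ℤ, b₂ = ∑ b, c' b * (w' b : ℤ) := ⟨_, rfl⟩
  rw [← ha₁, ← ha₂, ← hb₁, ← hb₂] at hD ⊢
  have hf1 : ∀ (g : SpecialLinearGroup (Fin m) F) (u v : Fˣ),
      fn φ N (g * (tor c hc u * tor c' hc' v)) = ((u ^ a₁ * v ^ a₂ : Fˣ) : F) * fn φ N g := by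
    intro g u v
    rw [← mul_assoc, fn_tor h, fn_tor h, ← ha₁, ← ha₂, Units.val_mul]
    ring
  have hf2 : ∀ (g : SpecialLinearGroup (Fin m) F) (u v : Fˣ),
      fn φ' N (g * (tor c hc u * tor c' hc' v)) = ((u ^ b₁ * v ^ b₂ : Fˣ) : F) * fn φ' N g := by
    intro g u v
    rw [← mul_assoc, fn_tor h', fn_tor h', ← hb₁, ← hb₂, Units.val_mul]
    ring
  have hmain := orbit_count (G := SpecialLinearGroup (Fin m) F) (T := Fˣ × Fˣ)
    (fun t => tor c hc t.1 * tor c' hc' t.2)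
    (fun g => fn φ N g = r ∧ fn φ' N g = s) (fun _ => True) ((a₁ * b₂ - a₂ * b₁).natAbs ^ 2)
    (fun _ _ _ => trivial) ?_
  · rw [Fintype.card_prod] at hmain
    refine hmain.trans (Nat.mul_le_mul_left _ ?_)
    exact (Finset.card_filter_le _ _).trans (le_of_eq Finset.card_univ)
  · intro g _
    by_cases hne : fn φ N g = 0 ∨ fn φ' N g = 0
    · refine le_trans (le_of_eq ?_) (Nat.zero_le _)
      rw [Finset.card_eq_zero, Finset.filter_eq_empty_iff]
      rintro ⟨u, v⟩ _ ⟨h1, h2⟩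
      have e1 := hf1 (g * (tor c hc u * tor c' hc' v)⁻¹) u v
      have e2 := hf2 (g * (tor c hc u * tor c' hc' v)⁻¹) u v
      rw [inv_mul_cancel_right] at e1 e2
      rw [h1] at e1
      rw [h2] at e2
      rcases hne with h0 | h0
      · rw [h0] at e1
        exact mul_ne_zero (Units.ne_zero _) hr e1.symm
      · rw [h0] at e2
        exact mul_ne_zero (Units.ne_zero _) hs e2.symm
    push Not at hne
    obtain ⟨α, hα⟩ : ∃ α : Fˣ, (α : F) = fn φ N g / r :=
      ⟨Units.mk0 _ (div_ne_zero hne.1 hr), rfl⟩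
    obtain ⟨β, hβ⟩ : ∃ β : Fˣ, (β : F) = fn φ' N g / s :=
      ⟨Units.mk0 _ (div_ne_zero hne.2 hs), rfl⟩
    have key : ∀ u v : Fˣ, fn φ N (g * (tor c hc u * tor c' hc' v)⁻¹) = r ∧
        fn φ' N (g * (tor c hc u * tor c' hc' v)⁻¹) = s →
        u ^ (a₁ * b₂ - a₂ * b₁) = α ^ b₂ * (β ^ a₂)⁻¹ ∧
        v ^ (a₁ * b₂ - a₂ * b₁) = β ^ a₁ * (α ^ b₁)⁻¹ := by
      rintro u v ⟨h1, h2⟩
      have e1 := hf1 (g * (tor c hc u * tor c' hc' v)⁻¹) u v
      have e2 := hf2 (g * (tor c hc u * tor c' hc' v)⁻¹) u v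
      rw [inv_mul_cancel_right] at e1 e2
      rw [h1] at e1
      rw [h2] at e2
      have e3 : α = u ^ a₁ * v ^ a₂ := by
        apply Units.ext
        rw [hα, e1]
        field_simp
      have e4 : β = u ^ b₁ * v ^ b₂ := by
        apply Units.ext
        rw [hβ, e2]
        field_simp
      rw [e3, e4]
      constructor
      · rw [mul_zpow, mul_zpow, mul_inv, ← _root_.zpow_mul, ← _root_.zpow_mul, ← _root_.zpow_mul,
          ← _root_.zpow_mul, ← _root_.zpow_neg, ← _root_.zpow_neg]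
        have : u ^ (a₁ * b₂) * v ^ (a₂ * b₂) * (u ^ (-(b₁ * a₂)) * v ^ (-(b₂ * a₂))) =
            (u ^ (a₁ * b₂) * u ^ (-(b₁ * a₂))) * (v ^ (a₂ * b₂) * v ^ (-(b₂ * a₂))) :=
          mul_mul_mul_comm _ _ _ _
        rw [this, ← _root_.zpow_add, ← _root_.zpow_add]
        have x1 : a₂ * b₂ + -(b₂ * a₂) = 0 := by ring
        have x2 : a₁ * b₂ + -(b₁ * a₂) = a₁ * b₂ - a₂ * b₁ := by ring
        rw [x1, x2, _root_.zpow_zero, mul_one]
      · rw [mul_zpow, mul_zpow, mul_inv, ← _root_.zpow_mul, ← _root_.zpow_mul, ← _root_.zpow_mul,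
          ← _root_.zpow_mul, ← _root_.zpow_neg, ← _root_.zpow_neg]
        have : u ^ (b₁ * a₁) * v ^ (b₂ * a₁) * (u ^ (-(a₁ * b₁)) * v ^ (-(a₂ * b₁))) =
            (u ^ (b₁ * a₁) * u ^ (-(a₁ * b₁))) * (v ^ (b₂ * a₁) * v ^ (-(a₂ * b₁))) :=
          mul_mul_mul_comm _ _ _ _
        rw [this, ← _root_.zpow_add, ← _root_.zpow_add]
        have x1 : b₁ * a₁ + -(a₁ * b₁) = 0 := by ring
        have x2 : b₂ * a₁ + -(a₂ * b₁) = a₁ * b₂ - a₂ * b₁ := by ring
        rw [x1, x2, _root_.zpow_zero, one_mul]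
    have hsub : (univ.filter fun t : Fˣ × Fˣ => fn φ N (g * (tor c hc t.1 * tor c' hc' t.2)⁻¹) = r ∧
        fn φ' N (g * (tor c hc t.1 * tor c' hc' t.2)⁻¹) = s) ⊆
        (univ.filter fun u : Fˣ => u ^ (a₁ * b₂ - a₂ * b₁) = α ^ b₂ * (β ^ a₂)⁻¹) ×ˢ
        (univ.filter fun v : Fˣ => v ^ (a₁ * b₂ - a₂ * b₁) = β ^ a₁ * (α ^ b₁)⁻¹) := by
      rintro ⟨u, v⟩ ht
      rw [mem_filter] at ht
      have hk := key u v ht.2
      rw [mem_product, mem_filter, mem_filter]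
      exact ⟨⟨mem_univ _, hk.1⟩, ⟨mem_univ _, hk.2⟩⟩
    refine (Finset.card_le_card hsub).trans ?_
    rw [Finset.card_product, sq]
    exact Nat.mul_le_mul (zpow_card_le _ hD _) (zpow_card_le _ hD _)

/-- the pair bound inside an invariant set -/
theorem pair_dep {w : Fin m → ℕ} {φ φ' : MvPolynomial (Fin m × Fin m) ℤ} (h : ColHom w φ) (N : Matrix (Fin m) (Fin m) F) (c : Fin m → ℤ) (hc : ∑ b, c b = 0)
    (k : ℕ) (hk0 : 0 < k) (hk : ∑ b, c b * (w b : ℤ) = k) (r s : F) (hr : r ≠ 0)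
    (V : SpecialLinearGroup (Fin m) F → Prop) [DecidablePred V]
    (hV : ∀ g, fn φ N g = r → fn φ' N g = s → ∀ u : Fˣ, V (g * tor c hc u)) :
    (univ.filter fun g => fn φ N g = r ∧ fn φ' N g = s).card * Fintype.card Fˣ ≤
      k * (univ.filter V).card := by
  refine orbit_count (tor c hc) (fun g => fn φ N g = r ∧ fn φ' N g = s) V k
    (fun g hg u => hV g hg.1 hg.2 u) ?_
  intro g _
  refine le_trans (Finset.card_le_card ?_) (pow_card_le k hk0 (fn φ N g) r hr)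
  intro u hu
  rw [mem_filter] at hu ⊢
  refine ⟨mem_univ _, ?_⟩
  have e1 := fn_tor_nat h N (g * (tor c hc u)⁻¹) c hc k hk u
  rw [inv_mul_cancel_right, hu.2.1] at e1
  exact e1

end grp

end Pool.Agent.N270.CH
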