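import Pool.Agent.N270.CH.Bx
import Pool.Agent.R433.SL.Final

/-! Record gaps around the values of column-homogeneous polynomials at the matrices of a given
determinant in a given residue class. -/

set_option autoImplicit false
set_option linter.unusedSectionVars false

namespace Pool.Agent.N270.CH

open Finset Matrix MvPolynomial Filter
open Pool.Agent.H256R2.SC (ff)
open Pool.Agent.R433.SL (sp Unif Low param ff_upper eval_le)

theorem colmain {J : Type} [Fintype J] (n q : ℕ) (hq : 0 < q)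
    (A₀ : Matrix (Fin (n + 1)) (Fin (n + 1)) ℤ) (hA₀ : A₀.det ≠ 0)
    (w : J → Fin (n + 1) → ℕ) (φ : J → MvPolynomial (Fin (n + 1) × Fin (n + 1)) ℤ)
    (hφ : ∀ j, ColHom (w j) (φ j))
    (hne : ∀ j, ∃ M : Matrix (Fin (n + 1)) (Fin (n + 1)) ℤ, M.det = A₀.det ∧ val (φ j) M ≠ 0)
    (hcond : ∀ j, Cond A₀ (w j) (φ j)) (hind : ∀ i j, i ≠ j → Indep A₀ (φ i) (φ j)) :
    ∃ c : ℝ, 0 < c ∧ ∀ ψ : MvPolynomial (Fin (n + 1) × Fin (n + 1)) ℤ,
      (∃ M : Matrix (Fin (n + 1)) (Fin (n + 1)) ℤ, M.det = A₀.det ∧ val ψ M ≠ 0) →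
      ∃ Z₀ : ℝ, ∀ Z : ℕ, Z₀ ≤ Z → ∃ A : Matrix (Fin (n + 1)) (Fin (n + 1)) ℤ,
      A.det = A₀.det ∧ (∀ i j, |A i j| ≤ Z) ∧ (∀ i j, (q : ℤ) ∣ A i j - A₀ i j) ∧ val ψ A ≠ 0 ∧
      ∀ j, ∀ t : ℤ, |(t : ℝ) - (val (φ j) A : ℤ)| ≤ c * ff Z →
        ∃ p : ℕ, p.Prime ∧ (p : ℤ) ^ 10 ≤ |t| ∧ (p : ℤ) ∣ t := by
  classical
  obtain ⟨d, Y, C, hC, hdet, hmod, hLow⟩ := param n q hq 1
  have hU : Unif Y hdet q C := fun p _ hp => hLow p hp _ (fun _ => rfl)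
  choose M₀ hM₀ hφM₀ using hne
  have hnc : ∀ j, ∀ c : ℤ, Fp A₀ Y (φ j) ≠ MvPolynomial.C c := by
    intro j z
    obtain ⟨c, k, hk0, hc, hk⟩ := (hcond j).cochar
    exact Fp_ne_C hC hU hA₀ (hφ j) c hc k hk0 hk (M₀ j) (hM₀ j) (hφM₀ j) z
  obtain ⟨c₁, hc₁, Z₀, hbox⟩ := box (fun j => Fp A₀ Y (φ j)) hnc
    (by
      intro j
      obtain ⟨κ, hκ, B, hB⟩ := single hC hU hA₀ (hφ j) (M₀ j) (hM₀ j) (hφM₀ j) (hcond j)
      refine ⟨2 + 2 * κ + C, by positivity, B + q, fun p _ hp r hr => ?_⟩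
      have g1 := hB p (by omega)
      have g2 : q < p := by omega
      have g3 : ∀ x : Fin d → ZMod p, aeval x (Fp A₀ Y (φ j)) = fn (φ j) (rd p A₀) (sp Y hdet x) :=
        fun x => aeval_Fp hdet A₀ (φ j) x
      have g4 := single_x hC hU g2 (Fp A₀ Y (φ j)) (fn (φ j) (rd p A₀)) g3 κ hκ g1 r hr
      exact g4)
    (by
      intro i j hij
      obtain ⟨K, hK, B, hB⟩ := pair hC hU hA₀ (hφ i) (hφ j) (M₀ i) (hM₀ i) (hφM₀ i) (M₀ j) (hM₀ j)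
        (hφM₀ j) (hcond i) (hcond j) (hind i j hij)
      refine ⟨K + C, by positivity, B + q, fun p _ hp r s hr hs => ?_⟩
      have g1 := hB p (by omega) r s hr hs
      have g2 : q < p := by omega
      have g3 : ∀ x : Fin d → ZMod p, aeval x (Fp A₀ Y (φ i)) = fn (φ i) (rd p A₀) (sp Y hdet x) :=
        fun x => aeval_Fp hdet A₀ (φ i) x
      have g3' : ∀ x : Fin d → ZMod p, aeval x (Fp A₀ Y (φ j)) = fn (φ j) (rd p A₀) (sp Y hdet x) :=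
        fun x => aeval_Fp hdet A₀ (φ j) x
      have g4 := pair_x hC hU g2 (Fp A₀ Y (φ i)) (Fp A₀ Y (φ j)) (fn (φ i) (rd p A₀))
        (fn (φ j) (rd p A₀)) g3 g3' K r s g1
      exact g4)
  -- the matrix of polynomials
  obtain ⟨P, hPdef⟩ : ∃ P : Matrix (Fin (n + 1)) (Fin (n + 1)) (MvPolynomial (Fin d) ℤ),
      P = A₀.map MvPolynomial.C * Y := ⟨_, rfl⟩
  have hPdet : ∀ x : Fin d → ℤ, (P.map (eval x)).det = A₀.det := by
    intro x
    have h1 : (P.map (eval x)).det = eval x P.det := (RingHom.map_det (eval x) P).symm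
    have h2 : (A₀.map (MvPolynomial.C : ℤ → MvPolynomial (Fin d) ℤ)).det = MvPolynomial.C A₀.det :=
      (RingHom.map_det (MvPolynomial.C : ℤ →+* MvPolynomial (Fin d) ℤ) A₀).symm
    rw [h1, hPdef, det_mul, hdet, mul_one, h2, eval_C]
  have hPmod : ∀ x : Fin d → ℤ, ∀ i j, (q : ℤ) ∣ eval x (P i j) - A₀ i j := by
    intro x i j
    have h1 : eval x (P i j) = ∑ k, A₀ i k * eval x (Y k j) := by
      rw [hPdef, Matrix.mul_apply, map_sum]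
      refine Finset.sum_congr rfl fun k _ => ?_
      rw [map_mul, Matrix.map_apply, eval_C]
    have h2 : A₀ i j = ∑ k, A₀ i k * (1 : Matrix (Fin (n + 1)) (Fin (n + 1)) ℤ) k j := by
      rw [← Matrix.mul_apply, Matrix.mul_one]
    rw [h1]
    conv_rhs => rw [h2]
    rw [← Finset.sum_sub_distrib]
    refine Finset.dvd_sum fun k _ => ?_
    rw [← mul_sub]
    exact (hmod x k j).mul_left _
  have hPval : ∀ (χ : MvPolynomial (Fin (n + 1) × Fin (n + 1)) ℤ) (x : Fin d → ℤ),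
      val χ (P.map (eval x)) = eval x (Fp A₀ Y χ) := by
    intro χ x
    rw [eval_Fp, hPdef]
  choose Aij hAij0 hAij using fun i j => eval_le (P i j)
  obtain ⟨A, hA⟩ : ∃ A : ℝ, A = ∑ i, ∑ j, Aij i j := ⟨_, rfl⟩
  have hA0 : 0 ≤ A := by
    rw [hA]
    exact Finset.sum_nonneg fun i _ => Finset.sum_nonneg fun j _ => hAij0 i j
  have hAle : ∀ i j, Aij i j ≤ A := by
    intro i j
    have a4 := Finset.single_le_sum (f := fun j => Aij i j) (fun j _ => hAij0 i j) (mem_univ j)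
    have a5 := Finset.single_le_sum (f := fun i => ∑ j, Aij i j)
      (fun i _ => Finset.sum_nonneg fun j _ => hAij0 i j) (mem_univ i)
    rw [hA]
    linarith
  obtain ⟨T, hT⟩ : ∃ T : ℕ, T = ∑ i, ∑ j, (P i j).totalDegree := ⟨_, rfl⟩
  have hTle : ∀ i j, (P i j).totalDegree ≤ T := by
    intro i j
    have a4 := Finset.single_le_sum (f := fun j => (P i j).totalDegree)
      (fun j _ => Nat.zero_le _) (mem_univ j)
    have a5 := Finset.single_le_sum (f := fun i => ∑ j, (P i j).totalDegree)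
      (fun i _ => Nat.zero_le _) (mem_univ i)
    rw [hT]
    exact a4.trans a5
  obtain ⟨θ, hθ⟩ : ∃ θ : ℝ, θ = 1 / (2 * (2 * T + 1)) := ⟨_, rfl⟩
  have hT0 : (0 : ℝ) ≤ T := Nat.cast_nonneg T
  have hθ0 : 0 < θ := by rw [hθ]; positivity
  have hθ1 : θ * (2 * (2 * T + 1)) = 1 := by rw [hθ]; field_simp
  have hθ2 : θ ≤ 1 := by nlinarith
  have hθ3 : θ * (2 * T) ≤ 1 / 2 := by nlinarith
  refine ⟨c₁ * (θ / 16), by positivity, ?_⟩
  rintro ψ ⟨Mψ, hMψ, hψ⟩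
  have hψ0 : Fp A₀ Y ψ ≠ 0 := by
    intro h0
    obtain ⟨p, hp1, hp2⟩ := Nat.exists_infinite_primes (B0 q C A₀ + (val ψ Mψ).natAbs + 1)
    have : Fact p.Prime := ⟨hp2⟩
    obtain ⟨h1, h2, h3, h4⟩ := B0_spec (q := q) (C := C) hA₀ (p := p) (by omega)
    obtain ⟨x, hx⟩ := hit_val hC hU h1 h2 A₀ Mψ hMψ h3
    have h5 := hx ψ
    rw [h0, map_zero] at h5
    exact not_dvd_big hψ (by omega) h5.symm
  obtain ⟨v, Z₁, hfar⟩ := far' (fun j => Fp A₀ Y (φ j)) hnc (Fp A₀ Y ψ) hψ0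
  obtain ⟨V, hV⟩ : ∃ V : ℝ, V = 1 + ∑ i, |(v i : ℝ)| := ⟨_, rfl⟩
  have hV1 : 1 ≤ V := by
    have : 0 ≤ ∑ i, |(v i : ℝ)| := Finset.sum_nonneg fun _ _ => abs_nonneg _
    rw [hV]
    linarith
  have hVle : ∀ i, |(v i : ℝ)| + 1 ≤ V := by
    intro i
    have := Finset.single_le_sum (f := fun i => |(v i : ℝ)|) (fun _ _ => abs_nonneg _) (mem_univ i)
    rw [hV]
    linarith
  obtain ⟨X₁, hX₁⟩ := Pool.Agent.Y837.SW.ff_floor θ hθ0 hθ2
  obtain ⟨X₂, hX₂⟩ := ff_upper c₁ hc₁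
  have ev1 : ∀ᶠ X : ℝ in atTop, max (max Z₀ Z₁) (max X₂ 1) + 1 ≤ X ^ θ :=
    (tendsto_rpow_atTop hθ0).eventually_ge_atTop _
  have ev2 : ∀ᶠ X : ℝ in atTop, A * V ^ T ≤ X ^ (1 / 2 : ℝ) :=
    (tendsto_rpow_atTop (by norm_num)).eventually_ge_atTop _
  obtain ⟨X₃, hX₃⟩ := eventually_atTop.1 (ev1.and (ev2.and (eventually_ge_atTop (1 : ℝ))))
  refine ⟨max X₁ X₃, fun Z hZ => ?_⟩
  have hZa : X₁ ≤ (Z : ℝ) := (le_max_left _ _).trans hZ
  have hZb : X₃ ≤ (Z : ℝ) := (le_max_right _ _).trans hZ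
  obtain ⟨k1, k2, k3⟩ := hX₃ Z hZb
  obtain ⟨Y', hY⟩ : ∃ Y' : ℕ, Y' = ⌊(Z : ℝ) ^ θ⌋₊ := ⟨_, rfl⟩
  have k4 := hX₁ Z hZa
  rw [← hY] at k4
  have hYle : (Y' : ℝ) ≤ (Z : ℝ) ^ θ := by rw [hY]; exact Nat.floor_le (by positivity)
  have hYge : max (max Z₀ Z₁) (max X₂ 1) ≤ (Y' : ℝ) := by
    have : (Z : ℝ) ^ θ < (Y' : ℝ) + 1 := by rw [hY]; exact Nat.lt_floor_add_one _
    linarith
  have hYZ₀ : Z₀ ≤ (Y' : ℝ) := ((le_max_left _ _).trans (le_max_left _ _)).trans hYge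
  have hYZ₁ : (Z₁ : ℝ) ≤ (Y' : ℝ) := ((le_max_right _ _).trans (le_max_left _ _)).trans hYge
  have hYX₂ : X₂ ≤ (Y' : ℝ) := ((le_max_left _ _).trans (le_max_right _ _)).trans hYge
  have hY1 : (1 : ℝ) ≤ Y' := ((le_max_right _ _).trans (le_max_right _ _)).trans hYge
  obtain ⟨x, hx1, hx2⟩ := hbox Y' hYZ₀ (fun i => (Y' : ℤ) ^ 2 * v i)
  obtain ⟨hlarge, hψx⟩ := hfar Y' (by exact_mod_cast hYZ₁) x hx1
  have hxb : ∀ i, |(x i : ℝ)| ≤ V * (Y' : ℝ) ^ 2 := by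
    intro i
    have h1 : (Y' : ℝ) ^ 2 * v i < x i := by exact_mod_cast (hx1 i).1
    have h2 : (x i : ℝ) ≤ (Y' : ℝ) ^ 2 * v i + Y' := by exact_mod_cast (hx1 i).2
    have h3 := hVle i
    have h4 := abs_le.1 (le_refl |(v i : ℝ)|)
    have h5 : (Y' : ℝ) ≤ (Y' : ℝ) ^ 2 := by nlinarith
    have h6 : (0 : ℝ) ≤ (Y' : ℝ) ^ 2 := by positivity
    rw [abs_le]
    constructor <;> nlinarith
  refine ⟨P.map (eval x), hPdet x, ?_, ?_, ?_, ?_⟩
  · intro i j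
    have h1 := hAij i j (V * (Y' : ℝ) ^ 2) (by nlinarith [one_le_pow₀ hY1 (n := 2)]) x hxb
    have hVY : 1 ≤ V * (Y' : ℝ) ^ 2 := by nlinarith [one_le_pow₀ hY1 (n := 2)]
    have h2 : |((eval x (P i j) : ℤ) : ℝ)| ≤ Z := by
      calc |((eval x (P i j) : ℤ) : ℝ)| ≤ Aij i j * (V * (Y' : ℝ) ^ 2) ^ (P i j).totalDegree := h1
        _ ≤ A * (V * (Y' : ℝ) ^ 2) ^ T :=
            mul_le_mul (hAle i j) (pow_le_pow_right₀ hVY (hTle i j)) (by positivity) hA0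
        _ = A * V ^ T * (Y' : ℝ) ^ (2 * T) := by rw [mul_pow, ← pow_mul]; ring
        _ ≤ (Z : ℝ) ^ (1 / 2 : ℝ) * (Z : ℝ) ^ (1 / 2 : ℝ) := by
            refine mul_le_mul k2 ?_ (by positivity) (by positivity)
            calc (Y' : ℝ) ^ (2 * T) ≤ ((Z : ℝ) ^ θ) ^ (2 * T) :=
                  pow_le_pow_left₀ (by linarith) hYle _
              _ = (Z : ℝ) ^ (θ * (2 * T)) := by
                  rw [← Real.rpow_natCast, ← Real.rpow_mul (by linarith)]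
                  push_cast
                  rfl
              _ ≤ (Z : ℝ) ^ (1 / 2 : ℝ) := Real.rpow_le_rpow_of_exponent_le k3 hθ3
        _ = Z := by
            rw [← Real.rpow_add (by linarith)]
            norm_num
    have h3 : (P.map (eval x)) i j = eval x (P i j) := rfl
    rw [h3]
    have h4 : ((|eval x (P i j)| : ℤ) : ℝ) ≤ ((Z : ℤ) : ℝ) := by
      push_cast
      exact h2
    exact_mod_cast h4
  · intro i j
    exact hPmod x i j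
  · rw [hPval]
    exact hψx
  · intro j t ht
    rw [hPval] at ht
    have ht1 : |(t : ℝ) - ((eval x (Fp A₀ Y (φ j)) : ℤ) : ℝ)| ≤ c₁ * ff Y' := by
      refine ht.trans ?_
      calc c₁ * (θ / 16) * ff Z = c₁ * (θ / 16 * ff Z) := by ring
        _ ≤ c₁ * ff Y' := mul_le_mul_of_nonneg_left k4 hc₁.le
    obtain ⟨p, hp1, hp2, hp3⟩ := hx2 j t ht1
    have h2 := hlarge j
    have h3 := hX₂ Y' hYX₂
    have h4 : (Y' : ℝ) ≤ |(t : ℝ)| := by
      have h5 := abs_sub_abs_le_abs_sub ((eval x (Fp A₀ Y (φ j)) : ℤ) : ℝ) (t : ℝ)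
      rw [abs_sub_comm] at h5
      linarith
    refine ⟨p, hp1, ?_, hp3⟩
    have h5 : (p : ℝ) ^ 10 ≤ Y' := by
      calc (p : ℝ) ^ 10 ≤ ((Y' : ℝ) ^ (1 / 10 : ℝ)) ^ 10 :=
            pow_le_pow_left₀ (Nat.cast_nonneg _) hp2 _
        _ = Y' := by
            rw [← Real.rpow_natCast, ← Real.rpow_mul (by linarith)]
            norm_num
    have h6 : (((p : ℤ) ^ 10 : ℤ) : ℝ) ≤ ((|t| : ℤ) : ℝ) := by
      push_cast
      exact h5.trans h4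
    exact_mod_cast h6

end Pool.Agent.N270.CH
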