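import Pool.Agent.N270.CH.Par

/-! Equidistribution of one polynomial and the bound for pairs, on the group. -/

set_option autoImplicit false
set_option linter.unusedSectionVars false

namespace Pool.Agent.N270.CH

open Finset Matrix MvPolynomial
open Pool.Agent.R433.SL (sp Unif Low surj eps_small zero_bd low_count low_upper)

/-- the condition on one column-homogeneous polynomial `φ` of column degrees `w`: either the
differences of the column degrees have greatest common divisor one, or they are not all zero and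
`φ` is linear in some column which can be replaced by another one, or they have greatest common
divisor two and `φ` is quadratic, with a nonzero discriminant, in some column -/
def Cond {m : ℕ} (A₀ : Matrix (Fin m) (Fin m) ℤ) (w : Fin m → ℕ)
    (φ : MvPolynomial (Fin m × Fin m) ℤ) : Prop :=
  (∃ c : Fin m → ℤ, ∑ b, c b = 0 ∧ ∑ b, c b * (w b : ℤ) = 1) ∨
  ((∃ b b', w b ≠ w b') ∧ ∃ a b, a ≠ b ∧ w b = 1 ∧
    ∃ M : Matrix (Fin m) (Fin m) ℤ, M.det = A₀.det ∧ val φ (rep a b M) ≠ 0) ∨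
  ((∃ c : Fin m → ℤ, ∑ b, c b = 0 ∧ ∑ b, c b * (w b : ℤ) = 2) ∧ ∃ a b, a ≠ b ∧ w b = 2 ∧
    ∃ M : Matrix (Fin m) (Fin m) ℤ, M.det = A₀.det ∧ disc φ a b M ≠ 0)

theorem exists_cochar {m : ℕ} {w : Fin m → ℕ} (h : ∃ b b', w b ≠ w b') :
    ∃ (c : Fin m → ℤ) (k : ℕ), 0 < k ∧ ∑ b, c b = 0 ∧ ∑ b, c b * (w b : ℤ) = k := by
  classical
  obtain ⟨b, b', hb⟩ : ∃ b b', w b' < w b := by
    obtain ⟨b, b', hb⟩ := h
    rcases Nat.lt_or_gt_of_ne hb with h | h
    · exact ⟨b', b, h⟩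
    · exact ⟨b, b', h⟩
  refine ⟨fun x => (if x = b then 1 else 0) - (if x = b' then 1 else 0), w b - w b', by omega, ?_, ?_⟩
  · rw [Finset.sum_sub_distrib]
    simp
  · simp only [sub_mul, ite_mul, one_mul, zero_mul]
    rw [Finset.sum_sub_distrib]
    simp
    omega

theorem Cond.cochar {m : ℕ} {A₀ : Matrix (Fin m) (Fin m) ℤ} {w : Fin m → ℕ}
    {φ : MvPolynomial (Fin m × Fin m) ℤ} (h : Cond A₀ w φ) :
    ∃ (c : Fin m → ℤ) (k : ℕ), 0 < k ∧ ∑ b, c b = 0 ∧ ∑ b, c b * (w b : ℤ) = k := by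
  rcases h with ⟨c, hc, h1⟩ | ⟨h, -⟩ | ⟨⟨c, hc, h1⟩, -⟩
  · exact ⟨c, 1, one_pos, hc, by exact_mod_cast h1⟩
  · exact exists_cochar h
  · exact ⟨c, 2, two_pos, hc, by exact_mod_cast h1⟩

section par

variable {m d q : ℕ} {C : ℝ} {Y : Matrix (Fin m) (Fin m) (MvPolynomial (Fin d) ℤ)}
  {hdet : Y.det = 1}

theorem single (hC : 0 ≤ C) (hU : Unif Y hdet q C) {A₀ : Matrix (Fin m) (Fin m) ℤ}
    (hA₀ : A₀.det ≠ 0) {w : Fin m → ℕ} {φ : MvPolynomial (Fin m × Fin m) ℤ} (hφ : ColHom w φ)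
    (M : Matrix (Fin m) (Fin m) ℤ) (hM : M.det = A₀.det) (hφM : val φ M ≠ 0) (h : Cond A₀ w φ) :
    ∃ κ : ℝ, 0 ≤ κ ∧ ∃ B : ℕ, ∀ (p : ℕ) [Fact p.Prime], B < p →
      Equi1 (fn φ (rd p A₀)) κ := by
  rcases h with ⟨c, hc, h1⟩ | ⟨h, a, b, hab, hb, M', hM', hφM'⟩ |
    ⟨⟨c, hc, h1⟩, a, b, hab, hb, M', hM', hφM'⟩
  · obtain ⟨K, hK, B, hB⟩ := zero_set hC hU hA₀ φ M hM hφM
    refine ⟨K, hK, B, fun p _ hp => ?_⟩
    refine equi_one hφ (rd p A₀) c hc h1 K ?_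
    rw [ZMod.card]
    exact hB p hp
  · obtain ⟨c, k, hk0, hc, hk⟩ := exists_cochar h
    obtain ⟨ψ, hψ⟩ := rep_val φ a b
    obtain ⟨K, hK, B, hB⟩ := zero_set hC hU hA₀ ψ M' hM' (by rw [← hψ]; exact hφM')
    refine ⟨3 + (k + 1) * K, by positivity, B, fun p _ hp => ?_⟩
    refine equi_lin hφ (rd p A₀) c hc k hk0 hk hab hb K ?_
    rw [ZMod.card]
    simp only [hψ]
    exact hB p hp
  · obtain ⟨ψ, hψ⟩ := disc_val φ a b
    obtain ⟨K, hK, B, hB⟩ := zero_set hC hU hA₀ ψ M' hM' (by rw [← hψ]; exact hφM')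
    refine ⟨3 + 3 * K, by positivity, B + 2, fun p _ hp => ?_⟩
    refine equi_quad hφ ?_ (rd p A₀) c hc h1 hab hb K ?_
    · rw [ZMod.ringChar_zmod_n]
      omega
    · rw [ZMod.card]
      simp only [hψ]
      exact hB p (by omega)

/-- no powers of the two polynomials are proportional on the matrices of the determinant -/
def Indep {m : ℕ} (A₀ : Matrix (Fin m) (Fin m) ℤ) (φ φ' : MvPolynomial (Fin m × Fin m) ℤ) : Prop :=
  ∀ a b : ℕ, 0 < a → 0 < b → ∃ M N : Matrix (Fin m) (Fin m) ℤ, M.det = A₀.det ∧ N.det = A₀.det ∧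
    val φ M ^ a * val φ' N ^ b ≠ val φ N ^ a * val φ' M ^ b

theorem deg_pow_mul {P Q : MvPolynomial (Fin d) ℤ} (e k : ℕ) (s t : ℤ) :
    (P ^ e * MvPolynomial.C s - Q ^ k * MvPolynomial.C t).totalDegree ≤
      e * P.totalDegree + k * Q.totalDegree := by
  have h1 := totalDegree_sub (P ^ e * MvPolynomial.C s) (Q ^ k * MvPolynomial.C t)
  have h2 := totalDegree_mul (P ^ e) (MvPolynomial.C s)
  have h3 := totalDegree_mul (Q ^ k) (MvPolynomial.C t)
  rw [totalDegree_C] at h2 h3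
  have h4 := totalDegree_pow P e
  have h5 := totalDegree_pow Q k
  refine h1.trans (max_le ?_ ?_) <;> omega

theorem deg_mul_pow {P Q : MvPolynomial (Fin d) ℤ} (e k : ℕ) (s : ℤ) :
    (P ^ e * Q ^ k - MvPolynomial.C s).totalDegree ≤ e * P.totalDegree + k * Q.totalDegree := by
  have h1 := totalDegree_sub (P ^ e * Q ^ k) (MvPolynomial.C s)
  have h2 := totalDegree_mul (P ^ e) (Q ^ k)
  rw [totalDegree_C] at h1
  have h4 := totalDegree_pow P e
  have h5 := totalDegree_pow Q k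
  refine h1.trans (max_le ?_ ?_) <;> omega

theorem cast_eval {p : ℕ} (P : MvPolynomial (Fin d) ℤ) (x : Fin d → ℤ) :
    ((eval x P : ℤ) : ZMod p) = aeval (fun i => ((x i : ℤ) : ZMod p)) P := by
  change Int.castRingHom (ZMod p) (eval x P) = _
  rw [aeval_def, MvPolynomial.eval, coe_eval₂Hom, hom_eval₂]
  congr 1

theorem aev1 {p : ℕ} (x : Fin d → ZMod p) (P Q : MvPolynomial (Fin d) ℤ) (n k : ℕ) (s t : ℤ) :
    aeval x (P ^ n * MvPolynomial.C s - Q ^ k * MvPolynomial.C t) =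
      (aeval x P) ^ n * (s : ZMod p) - (aeval x Q) ^ k * (t : ZMod p) := by
  rw [map_sub, map_mul, map_mul, map_pow, map_pow, aeval_C, aeval_C]
  rfl

/-- the final arithmetic of the pair bound -/
theorem pair_arith {p N V G : ℝ} {k K : ℝ} (hp : 2 ≤ p) (hN : 0 ≤ N) (h1 : N * (p - 1) ≤ k * V)
    (h2 : p * V ≤ K * G) (hk : 0 ≤ k) : p ^ 2 * N ≤ 2 * k * K * G := by
  have h3 : p * N ≤ 2 * (N * (p - 1)) := by nlinarith
  have h4 : p * (p * N) ≤ p * (2 * (k * V)) := mul_le_mul_of_nonneg_left (by linarith) (by linarith)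
  have h5 : k * (p * V) ≤ k * (K * G) := mul_le_mul_of_nonneg_left h2 hk
  nlinarith

theorem pair (hC : 0 ≤ C) (hU : Unif Y hdet q C) {A₀ : Matrix (Fin m) (Fin m) ℤ}
    (hA₀ : A₀.det ≠ 0) {w w' : Fin m → ℕ} {φ φ' : MvPolynomial (Fin m × Fin m) ℤ}
    (hφ : ColHom w φ) (hφ' : ColHom w' φ')
    (M : Matrix (Fin m) (Fin m) ℤ) (hM : M.det = A₀.det) (hφM : val φ M ≠ 0)
    (M' : Matrix (Fin m) (Fin m) ℤ) (hM' : M'.det = A₀.det) (hφM' : val φ' M' ≠ 0)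
    (h : Cond A₀ w φ) (h' : Cond A₀ w' φ') (hind : Indep A₀ φ φ') :
    ∃ K : ℝ, 0 ≤ K ∧ ∃ B : ℕ, ∀ (p : ℕ) [Fact p.Prime], B < p → ∀ r s : ZMod p, r ≠ 0 → s ≠ 0 →
      (p : ℝ) ^ 2 * ((univ.filter fun g : SpecialLinearGroup (Fin m) (ZMod p) =>
        fn φ (rd p A₀) g = r ∧ fn φ' (rd p A₀) g = s).card : ℝ) ≤
        K * Fintype.card (SpecialLinearGroup (Fin m) (ZMod p)) := by
  classical
  obtain ⟨c, k, hk0, hc, hk⟩ := h.cochar
  obtain ⟨c', k', hk0', hc', hk'⟩ := h'.cochar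
  by_cases hD : (∑ b, c b * (w b : ℤ)) * (∑ b, c' b * (w' b : ℤ)) -
      (∑ b, c' b * (w b : ℤ)) * (∑ b, c b * (w' b : ℤ)) ≠ 0
  · obtain ⟨D, hDdef⟩ : ∃ D : ℕ, D = ((∑ b, c b * (w b : ℤ)) * (∑ b, c' b * (w' b : ℤ)) -
      (∑ b, c' b * (w b : ℤ)) * (∑ b, c b * (w' b : ℤ))).natAbs := ⟨_, rfl⟩
    refine ⟨4 * D ^ 2, by positivity, 2, ?_⟩
    intro p hp hB r s hr hs
    have h1 := pair_indep hφ hφ' (rd p A₀) c c' hc hc' hD r s hr hs
    rw [← hDdef] at h1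
    have h2 : (Fintype.card (ZMod p)ˣ : ℝ) = p - 1 := by
      rw [card_units_real, ZMod.card]
    have h3 : ((univ.filter fun g : SpecialLinearGroup (Fin m) (ZMod p) =>
        fn φ (rd p A₀) g = r ∧ fn φ' (rd p A₀) g = s).card : ℝ) * (((p : ℝ) - 1) * ((p : ℝ) - 1)) ≤
        D ^ 2 * Fintype.card (SpecialLinearGroup (Fin m) (ZMod p)) := by
      rw [← h2]
      exact_mod_cast h1
    set N : ℝ := ((univ.filter fun g : SpecialLinearGroup (Fin m) (ZMod p) =>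
        fn φ (rd p A₀) g = r ∧ fn φ' (rd p A₀) g = s).card : ℝ) with hN
    have hN0 : 0 ≤ N := Nat.cast_nonneg _
    have hp3 : (3 : ℝ) ≤ p := by exact_mod_cast hB
    have h4 : (p : ℝ) ^ 2 ≤ 4 * (((p : ℝ) - 1) * ((p : ℝ) - 1)) := by nlinarith
    calc (p : ℝ) ^ 2 * N ≤ 4 * (((p : ℝ) - 1) * ((p : ℝ) - 1)) * N :=
          mul_le_mul_of_nonneg_right h4 hN0
      _ = 4 * (N * (((p : ℝ) - 1) * ((p : ℝ) - 1))) := by ring
      _ ≤ 4 * (D ^ 2 * Fintype.card (SpecialLinearGroup (Fin m) (ZMod p))) := by linarith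
      _ = _ := by ring
  push Not at hD
  obtain ⟨e, he⟩ : ∃ e : ℤ, e = ∑ b, c b * (w' b : ℤ) := ⟨_, rfl⟩
  rw [hk, hk', ← he] at hD
  have he0 : e ≠ 0 := by
    rintro rfl
    rw [mul_zero, sub_zero] at hD
    have : (0 : ℤ) < (k : ℤ) * k' := by positivity
    omega
  have hscale : ∀ (p : ℕ) [Fact p.Prime] (g : SpecialLinearGroup (Fin m) (ZMod p)) (u : (ZMod p)ˣ),
      fn φ (rd p A₀) (g * tor c hc u) = ((u ^ (k : ℤ) : (ZMod p)ˣ) : ZMod p) * fn φ (rd p A₀) g ∧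
      fn φ' (rd p A₀) (g * tor c hc u) = ((u ^ e : (ZMod p)ˣ) : ZMod p) * fn φ' (rd p A₀) g := by
    intro p _ g u
    refine ⟨?_, ?_⟩
    · rw [fn_tor hφ, hk]
    · rw [fn_tor hφ', he]
  rcases lt_or_gt_of_ne he0 with hneg | hpos
  · -- the product of powers is invariant
    obtain ⟨n, hn⟩ : ∃ n : ℕ, (n : ℤ) = -e := ⟨(-e).toNat, Int.toNat_of_nonneg (by omega)⟩
    have hn0 : 0 < n := by omega
    have hF0 : Fp A₀ Y φ ≠ 0 := by
      have := Fp_ne_C hC hU hA₀ hφ c hc k hk0 hk M hM hφM 0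
      rwa [map_zero] at this
    have hF0' : Fp A₀ Y φ' ≠ 0 := by
      have := Fp_ne_C hC hU hA₀ hφ' c' hc' k' hk0' hk' M' hM' hφM' 0
      rwa [map_zero] at this
    obtain ⟨P, hP⟩ : ∃ P : MvPolynomial (Fin d) ℤ, P = Fp A₀ Y φ ^ n * Fp A₀ Y φ' ^ k := ⟨_, rfl⟩
    have hPC : ∀ z, P ≠ MvPolynomial.C z := by
      intro z hz
      have h1 : P.totalDegree = 0 := by rw [hz, totalDegree_C]
      have h2 : P = Fp A₀ Y φ * (Fp A₀ Y φ ^ (n - 1) * Fp A₀ Y φ' ^ k) := by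
        rw [hP, ← mul_assoc, ← pow_succ']
        congr 2
        omega
      rw [h2, totalDegree_mul_of_isDomain hF0 (mul_ne_zero (pow_ne_zero _ hF0)
        (pow_ne_zero _ hF0'))] at h1
      have h3 : (Fp A₀ Y φ).totalDegree = 0 := by omega
      exact Fp_ne_C hC hU hA₀ hφ c hc k hk0 hk M hM hφM _ (totalDegree_eq_zero_iff_eq_C.1 h3)
    obtain ⟨x₁, hx₁⟩ : ∃ x₁ : Fin d → ℤ, eval x₁ P ≠ eval 0 P := by
      by_contra hcon
      push Not at hcon
      exact hPC _ (MvPolynomial.funext fun x => by rw [hcon x, eval_C])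
    refine ⟨2 * k * (2 * ((n * (Fp A₀ Y φ).totalDegree + k * (Fp A₀ Y φ').totalDegree : ℕ) : ℝ)),
      by positivity, B0 q C A₀ + (eval x₁ P - eval 0 P).natAbs, ?_⟩
    intro p hp hB r s hr hs
    obtain ⟨h1, h2, h3, h4⟩ := B0_spec (q := q) (C := C) hA₀ (p := p) (by omega)
    have hV := pair_dep (φ' := φ') hφ (rd p A₀) c hc k hk0 hk r s hr
      (fun g => fn φ (rd p A₀) g ^ n * fn φ' (rd p A₀) g ^ k - r ^ n * s ^ k = 0) (by
        intro g hg1 hg2 u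
        obtain ⟨s1, s2⟩ := hscale p g u
        rw [s1, s2, hg1, hg2, mul_pow, mul_pow]
        have e1 : ((u ^ (k : ℤ) : (ZMod p)ˣ) : ZMod p) ^ n * ((u ^ e : (ZMod p)ˣ) : ZMod p) ^ k = 1 := by
          rw [← Units.val_pow_eq_pow_val, ← Units.val_pow_eq_pow_val, ← Units.val_mul,
            ← zpow_natCast (u ^ (k : ℤ)) n, ← zpow_natCast (u ^ e) k, ← _root_.zpow_mul,
            ← _root_.zpow_mul, ← _root_.zpow_add]
          have : (k : ℤ) * n + e * k = 0 := by rw [hn]; ring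
          rw [this, _root_.zpow_zero, Units.val_one]
        linear_combination (r ^ n * s ^ k) * e1)
    have hz := zero_fix hC hU h1 h2 (Fp A₀ Y φ ^ n * Fp A₀ Y φ' ^ k -
        MvPolynomial.C (((r.val : ℤ)) ^ n * ((s.val : ℤ)) ^ k))
      (fun g => fn φ (rd p A₀) g ^ n * fn φ' (rd p A₀) g ^ k - r ^ n * s ^ k) (by
        intro x
        rw [map_sub, map_mul, map_pow, map_pow, aeval_Fp hdet, aeval_Fp hdet, aeval_C]
        simp [fn])
    have hx : ∃ x₀ : Fin d → ZMod p, aeval x₀ (Fp A₀ Y φ ^ n * Fp A₀ Y φ' ^ k -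
        MvPolynomial.C (((r.val : ℤ)) ^ n * ((s.val : ℤ)) ^ k)) ≠ 0 := by
      by_contra hcon
      push Not at hcon
      have a1 := hcon (fun i => ((x₁ i : ℤ) : ZMod p))
      have a2 := hcon (fun i => (((0 : Fin d → ℤ) i : ℤ) : ZMod p))
      rw [← hP, map_sub, aeval_C] at a1 a2
      rw [← cast_eval] at a1 a2
      have a3 : (((eval x₁ P - eval 0 P : ℤ)) : ZMod p) = 0 := by
        rw [Int.cast_sub]
        linear_combination a1 - a2
      exact not_dvd_big (sub_ne_zero.2 hx₁) (by omega) a3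
    obtain ⟨x₀, hx₀⟩ := hx
    have hz2 := hz x₀ hx₀ _ (deg_mul_pow _ _ _)
    have hunit : (Fintype.card (ZMod p)ˣ : ℝ) = p - 1 := by
      rw [card_units_real, ZMod.card]
    refine pair_arith (V := ((univ.filter fun g : SpecialLinearGroup (Fin m) (ZMod p) =>
      fn φ (rd p A₀) g ^ n * fn φ' (rd p A₀) g ^ k - r ^ n * s ^ k = 0).card : ℝ))
      (by exact_mod_cast (by omega : 2 ≤ p)) (Nat.cast_nonneg _) ?_ ?_ (by positivity)
    · rw [← hunit]
      exact_mod_cast hV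
    · exact hz2
  · -- the quotient of powers is invariant
    obtain ⟨n, hn⟩ : ∃ n : ℕ, (n : ℤ) = e := ⟨e.toNat, Int.toNat_of_nonneg (by omega)⟩
    have hn0 : 0 < n := by omega
    obtain ⟨M₁, M₂, hM₁, hM₂, hne⟩ := hind n k hn0 hk0
    refine ⟨2 * k * (2 * ((n * (Fp A₀ Y φ).totalDegree + k * (Fp A₀ Y φ').totalDegree : ℕ) : ℝ)),
      by positivity, B0 q C A₀ + (val φ M₁ ^ n * val φ' M₂ ^ k - val φ M₂ ^ n * val φ' M₁ ^ k).natAbs,
      ?_⟩
    intro p hp hB r s hr hs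
    obtain ⟨h1, h2, h3, h4⟩ := B0_spec (q := q) (C := C) hA₀ (p := p) (by omega)
    have hV := pair_dep (φ' := φ') hφ (rd p A₀) c hc k hk0 hk r s hr
      (fun g => fn φ (rd p A₀) g ^ n * s ^ k - fn φ' (rd p A₀) g ^ k * r ^ n = 0) (by
        intro g hg1 hg2 u
        obtain ⟨s1, s2⟩ := hscale p g u
        rw [s1, s2, hg1, hg2, mul_pow, mul_pow]
        have e1 : ((u ^ (k : ℤ) : (ZMod p)ˣ) : ZMod p) ^ n = ((u ^ e : (ZMod p)ˣ) : ZMod p) ^ k := by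
          rw [← Units.val_pow_eq_pow_val, ← Units.val_pow_eq_pow_val,
            ← zpow_natCast (u ^ (k : ℤ)) n, ← zpow_natCast (u ^ e) k, ← _root_.zpow_mul,
            ← _root_.zpow_mul]
          have : (k : ℤ) * n = e * k := by rw [hn]; ring
          rw [this]
        linear_combination (r ^ n * s ^ k) * e1)
    have hz := zero_fix hC hU h1 h2 (Fp A₀ Y φ ^ n * MvPolynomial.C (((s.val : ℤ)) ^ k) -
        Fp A₀ Y φ' ^ k * MvPolynomial.C (((r.val : ℤ)) ^ n))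
      (fun g => fn φ (rd p A₀) g ^ n * s ^ k - fn φ' (rd p A₀) g ^ k * r ^ n) (by
        intro x
        rw [aev1, aeval_Fp hdet, aeval_Fp hdet]
        simp [fn])
    have hx : ∃ x₀ : Fin d → ZMod p, aeval x₀ (Fp A₀ Y φ ^ n * MvPolynomial.C (((s.val : ℤ)) ^ k) -
        Fp A₀ Y φ' ^ k * MvPolynomial.C (((r.val : ℤ)) ^ n)) ≠ 0 := by
      by_contra hcon
      push Not at hcon
      obtain ⟨y₁, hy₁⟩ := hit_val hC hU h1 h2 A₀ M₁ hM₁ h3
      obtain ⟨y₂, hy₂⟩ := hit_val hC hU h1 h2 A₀ M₂ hM₂ h3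
      have a1 := hcon y₁
      have a2 := hcon y₂
      rw [aev1, hy₁, hy₁] at a1
      rw [aev1, hy₂, hy₂] at a2
      simp only [Int.cast_pow, Int.cast_natCast, ZMod.natCast_zmod_val] at a1 a2
      have a3 : (((val φ M₁ ^ n * val φ' M₂ ^ k - val φ M₂ ^ n * val φ' M₁ ^ k : ℤ)) : ZMod p) = 0 := by
        push_cast
        have a4 : (s ^ k * r ^ n) * (((val φ M₁ : ℤ) : ZMod p) ^ n * ((val φ' M₂ : ℤ) : ZMod p) ^ k -
            ((val φ M₂ : ℤ) : ZMod p) ^ n * ((val φ' M₁ : ℤ) : ZMod p) ^ k) = 0 := by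
          linear_combination (((val φ' M₂ : ℤ) : ZMod p) ^ k * r ^ n) * a1 -
            (((val φ' M₁ : ℤ) : ZMod p) ^ k * r ^ n) * a2
        exact (mul_eq_zero.1 a4).resolve_left (mul_ne_zero (pow_ne_zero _ hs) (pow_ne_zero _ hr))
      exact not_dvd_big (sub_ne_zero.2 hne) (by omega) a3
    obtain ⟨x₀, hx₀⟩ := hx
    have hz2 := hz x₀ hx₀ _ (deg_pow_mul _ _ _ _)
    have hunit : (Fintype.card (ZMod p)ˣ : ℝ) = p - 1 := by
      rw [card_units_real, ZMod.card]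
    refine pair_arith (V := ((univ.filter fun g : SpecialLinearGroup (Fin m) (ZMod p) =>
      fn φ (rd p A₀) g ^ n * s ^ k - fn φ' (rd p A₀) g ^ k * r ^ n = 0).card : ℝ))
      (by exact_mod_cast (by omega : 2 ≤ p)) (Nat.cast_nonneg _) ?_ ?_ (by positivity)
    · rw [← hunit]
      exact_mod_cast hV
    · exact hz2

end par

end Pool.Agent.N270.CH
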