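import Pool.Agent.N270.CH.Grp
import Pool.Agent.R433.SL.Far

/-! Polynomials on the parametrised matrices: values modulo primes and zero sets. -/

set_option autoImplicit false
set_option linter.unusedSectionVars false

namespace Pool.Agent.N270.CH

open Finset Matrix MvPolynomial
open Pool.Agent.R433.SL (sp Unif Low surj eps_small zero_bd low_count low_upper)

/-- the polynomial in the parameters -/
noncomputable def Fp {m d : ℕ} (A₀ : Matrix (Fin m) (Fin m) ℤ)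
    (Y : Matrix (Fin m) (Fin m) (MvPolynomial (Fin d) ℤ)) (φ : MvPolynomial (Fin m × Fin m) ℤ) :
    MvPolynomial (Fin d) ℤ := val φ (A₀.map MvPolynomial.C * Y)

/-- reduction of an integer matrix -/
def rd {m : ℕ} (p : ℕ) (A : Matrix (Fin m) (Fin m) ℤ) : Matrix (Fin m) (Fin m) (ZMod p) :=
  A.map (Int.castRingHom (ZMod p))

theorem val_rd {m : ℕ} (p : ℕ) (A : Matrix (Fin m) (Fin m) ℤ) (φ : MvPolynomial (Fin m × Fin m) ℤ) :
    val φ (rd p A) = ((val φ A : ℤ) : ZMod p) := val_map (Int.castRingHom (ZMod p)) φ A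

/-- natural functions are values of polynomials -/
theorem disc_val {m : ℕ} (φ : MvPolynomial (Fin m × Fin m) ℤ) (a b : Fin m) :
    ∃ ψ : MvPolynomial (Fin m × Fin m) ℤ, ∀ (R : Type) [CommRing R] (M : Matrix (Fin m) (Fin m) R),
      disc φ a b M = val ψ M := by
  refine ⟨disc φ a b (Matrix.of fun i j => X (i, j)), fun R _ M => ?_⟩
  have h := disc_map (aeval (fun e : Fin m × Fin m => M e.1 e.2) :
      MvPolynomial (Fin m × Fin m) ℤ →ₐ[ℤ] R).toRingHom φ a b (Matrix.of fun i j => X (i, j))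
  have e : (Matrix.of fun i j => (X (i, j) : MvPolynomial (Fin m × Fin m) ℤ)).map
      (aeval (fun e : Fin m × Fin m => M e.1 e.2) :
      MvPolynomial (Fin m × Fin m) ℤ →ₐ[ℤ] R).toRingHom = M := by
    ext i j
    simp
  rw [e] at h
  exact h

theorem rep_val {m : ℕ} (φ : MvPolynomial (Fin m × Fin m) ℤ) (a b : Fin m) :
    ∃ ψ : MvPolynomial (Fin m × Fin m) ℤ, ∀ (R : Type) [CommRing R] (M : Matrix (Fin m) (Fin m) R),
      val φ (rep a b M) = val ψ M := by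
  refine ⟨val φ (rep a b (Matrix.of fun i j => X (i, j))), fun R _ M => ?_⟩
  have h := val_map (aeval (fun e : Fin m × Fin m => M e.1 e.2) :
      MvPolynomial (Fin m × Fin m) ℤ →ₐ[ℤ] R).toRingHom φ
      (rep a b (Matrix.of fun i j => (X (i, j) : MvPolynomial (Fin m × Fin m) ℤ)))
  have e : (Matrix.of fun i j => (X (i, j) : MvPolynomial (Fin m × Fin m) ℤ)).map
      (aeval (fun e : Fin m × Fin m => M e.1 e.2) :
      MvPolynomial (Fin m × Fin m) ℤ →ₐ[ℤ] R).toRingHom = M := by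
    ext i j
    simp
  rw [← rep_map, e] at h
  exact h

section par

variable {m d q : ℕ} {C : ℝ} {Y : Matrix (Fin m) (Fin m) (MvPolynomial (Fin d) ℤ)}
  {hdet : Y.det = 1}

theorem mapY {R : Type} [CommRing R] (A₀ : Matrix (Fin m) (Fin m) ℤ) (x : Fin d → R) :
    (A₀.map (MvPolynomial.C : ℤ → MvPolynomial (Fin d) ℤ) * Y).map
      (aeval x : MvPolynomial (Fin d) ℤ →ₐ[ℤ] R).toRingHom =
      A₀.map (Int.castRingHom R) * Y.map (aeval x) := by
  rw [Matrix.map_mul]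
  congr 1
  ext i j
  simp

theorem aeval_Fp (hdet : Y.det = 1) (A₀ : Matrix (Fin m) (Fin m) ℤ)
    (φ : MvPolynomial (Fin m × Fin m) ℤ) {p : ℕ} (x : Fin d → ZMod p) :
    aeval x (Fp A₀ Y φ) = val φ (rd p A₀ * (sp Y hdet x).1) := by
  have h := val_map (aeval x : MvPolynomial (Fin d) ℤ →ₐ[ℤ] ZMod p).toRingHom φ
    (A₀.map (MvPolynomial.C : ℤ → MvPolynomial (Fin d) ℤ) * Y)
  rw [mapY] at h
  exact h.symm

theorem eval_Fp (A₀ : Matrix (Fin m) (Fin m) ℤ)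
    (φ : MvPolynomial (Fin m × Fin m) ℤ) (x : Fin d → ℤ) :
    eval x (Fp A₀ Y φ) = val φ ((A₀.map (MvPolynomial.C : ℤ → MvPolynomial (Fin d) ℤ) * Y).map
      (eval x)) := (val_map (eval x) φ _).symm

theorem hit (hC : 0 ≤ C) (hU : Unif Y hdet q C) {p : ℕ} [Fact p.Prime] (hq : q < p)
    (hp : (2 * C + 1 : ℝ) ≤ p) (A₀ M : Matrix (Fin m) (Fin m) ℤ) (hM : M.det = A₀.det)
    (hp' : ¬ (p : ℤ) ∣ A₀.det) :
    ∃ x : Fin d → ZMod p, rd p A₀ * (sp Y hdet x).1 = rd p M := by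
  have hd : (rd p A₀).det = ((A₀.det : ℤ) : ZMod p) :=
    (RingHom.map_det (Int.castRingHom (ZMod p)) A₀).symm
  have hd' : (rd p M).det = ((A₀.det : ℤ) : ZMod p) := by
    rw [← hM]
    exact (RingHom.map_det (Int.castRingHom (ZMod p)) M).symm
  have hne : ((A₀.det : ℤ) : ZMod p) ≠ 0 := by
    intro h
    rw [ZMod.intCast_zmod_eq_zero_iff_dvd] at h
    exact hp' h
  have hu : IsUnit (rd p A₀).det := by
    rw [hd]
    exact isUnit_iff_ne_zero.2 hne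
  have hdg : ((rd p A₀)⁻¹ * rd p M).det = 1 := by
    rw [det_mul, det_nonsing_inv, hd', hd, Ring.inverse_eq_inv', inv_mul_cancel₀ hne]
  obtain ⟨x, hx⟩ := surj hC hU hq hp ⟨(rd p A₀)⁻¹ * rd p M, hdg⟩
  refine ⟨x, ?_⟩
  rw [hx]
  change rd p A₀ * ((rd p A₀)⁻¹ * rd p M) = rd p M
  rw [← Matrix.mul_assoc, Matrix.mul_nonsing_inv _ hu, Matrix.one_mul]

/-- values at hit points -/
theorem hit_val (hC : 0 ≤ C) (hU : Unif Y hdet q C) {p : ℕ} [Fact p.Prime] (hq : q < p)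
    (hp : (2 * C + 1 : ℝ) ≤ p) (A₀ M : Matrix (Fin m) (Fin m) ℤ) (hM : M.det = A₀.det)
    (hp' : ¬ (p : ℤ) ∣ A₀.det) :
    ∃ x : Fin d → ZMod p, ∀ φ : MvPolynomial (Fin m × Fin m) ℤ,
      aeval x (Fp A₀ Y φ) = ((val φ M : ℤ) : ZMod p) := by
  obtain ⟨x, hx⟩ := hit hC hU hq hp A₀ M hM hp'
  exact ⟨x, fun φ => by rw [aeval_Fp hdet, hx, val_rd]⟩

/-- the zeros of a function on the group given by a polynomial in the parameters -/
theorem zero_fix (hC : 0 ≤ C) (hU : Unif Y hdet q C) {p : ℕ} [Fact p.Prime] (hq : q < p)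
    (hp : (2 * C + 1 : ℝ) ≤ p) (H : MvPolynomial (Fin d) ℤ)
    (h : SpecialLinearGroup (Fin m) (ZMod p) → ZMod p) (hH : ∀ x, aeval x H = h (sp Y hdet x))
    (x₀ : Fin d → ZMod p) (hx₀ : aeval x₀ H ≠ 0) (T : ℕ) (hT : H.totalDegree ≤ T) :
    (p : ℝ) * ((univ.filter fun g => h g = 0).card : ℝ) ≤
      2 * T * Fintype.card (SpecialLinearGroup (Fin m) (ZMod p)) := by
  classical
  have hpp := (Fact.out : p.Prime)
  have hup : ¬ (p : ℤ) ∣ eval (fun i => ((x₀ i).val : ℤ)) H := by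
    intro hd
    apply hx₀
    rw [← ZMod.intCast_zmod_eq_zero_iff_dvd] at hd
    have h2 : (Int.castRingHom (ZMod p)) (eval (fun i => ((x₀ i).val : ℤ)) H) = aeval x₀ H := by
      rw [aeval_def, MvPolynomial.eval, coe_eval₂Hom, hom_eval₂]
      have e : (fun i => Int.castRingHom (ZMod p) ((x₀ i).val : ℤ)) = x₀ := by
        funext i
        simp
      congr 1
    rw [← h2]
    exact hd
  have h1 := zero_bd H _ hup
  have hε := eps_small hC hp
  have h2 := low_count (hU p hq) (fun A => h A = 0)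
  have h3 : ∀ inst : DecidablePred fun x : Fin d → ZMod p => h (sp Y hdet x) = 0,
      @Finset.filter _ (fun x : Fin d → ZMod p => h (sp Y hdet x) = 0) inst univ =
      univ.filter (fun x : Fin d → ZMod p => aeval x H = 0) := fun inst => by
    ext x
    rw [mem_filter, mem_filter, hH]
  rw [h3, Fintype.card_fun, ZMod.card, Fintype.card_fin] at h2
  set n₀ : ℝ := ((univ.filter fun A : SpecialLinearGroup (Fin m) (ZMod p) => h A = 0).card : ℝ)
    with hn₀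
  have hn : ∀ inst : DecidablePred fun A : SpecialLinearGroup (Fin m) (ZMod p) => h A = 0,
      ((@Finset.filter _ (fun A : SpecialLinearGroup (Fin m) (ZMod p) => h A = 0) inst
        univ).card : ℝ) = n₀ := fun inst => by
    rw [hn₀]
    congr!
  rw [hn] at h2
  set Z : ℝ := ((univ.filter (fun x : Fin d → ZMod p => aeval x H = 0)).card : ℝ) with hZ
  have h1' : Z * p ≤ T * (p : ℝ) ^ d := by
    have : Z * p ≤ H.totalDegree * (p : ℝ) ^ d := by
      rw [hZ]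
      exact_mod_cast h1
    refine this.trans (mul_le_mul_of_nonneg_right ?_ (by positivity))
    exact_mod_cast hT
  set g₀ : ℝ := (Fintype.card (SpecialLinearGroup (Fin m) (ZMod p)) : ℝ) with hg₀
  have hg00 : 0 ≤ g₀ := Nat.cast_nonneg _
  have hn00 : 0 ≤ n₀ := Nat.cast_nonneg _
  have hp0 : (0 : ℝ) < p := by exact_mod_cast hpp.pos
  have hpd : (0 : ℝ) < (p : ℝ) ^ d := by positivity
  push_cast at h2
  have h4 : (p : ℝ) * n₀ * (p : ℝ) ^ d ≤ 2 * T * g₀ * (p : ℝ) ^ d := by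
    have e1 : 1 / 2 * n₀ * (p : ℝ) ^ d ≤ (1 - C / (p : ℝ) ^ 2) * n₀ * (p : ℝ) ^ d := by
      apply mul_le_mul_of_nonneg_right _ hpd.le
      apply mul_le_mul_of_nonneg_right _ hn00
      linarith
    have e2 : 1 / 2 * n₀ * (p : ℝ) ^ d ≤ g₀ * Z := e1.trans h2
    have e3 : g₀ * (Z * p) ≤ g₀ * (T * (p : ℝ) ^ d) :=
      mul_le_mul_of_nonneg_left h1' hg00
    have e4 : p * (1 / 2 * n₀ * (p : ℝ) ^ d) ≤ p * (g₀ * Z) := mul_le_mul_of_nonneg_left e2 hp0.le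
    nlinarith
  exact le_of_mul_le_mul_right h4 hpd

/-- a bound for the primes beyond which everything works -/
noncomputable def B0 (q : ℕ) (C : ℝ) (A₀ : Matrix (Fin m) (Fin m) ℤ) : ℕ :=
  q + ⌈2 * C + 1⌉₊ + A₀.det.natAbs + 2

theorem B0_spec {A₀ : Matrix (Fin m) (Fin m) ℤ} (hA₀ : A₀.det ≠ 0) {p : ℕ} (hp : B0 q C A₀ < p) :
    q < p ∧ (2 * C + 1 : ℝ) ≤ p ∧ ¬ (p : ℤ) ∣ A₀.det ∧ 3 ≤ p := by
  rw [B0] at hp
  refine ⟨by omega, (Nat.le_ceil _).trans (by exact_mod_cast (by omega)), ?_, by omega⟩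
  intro h
  have h1 := Int.natAbs_dvd_natAbs.2 h
  rw [Int.natAbs_natCast] at h1
  have h2 := Nat.le_of_dvd (Int.natAbs_pos.2 hA₀) h1
  omega

theorem not_dvd_big {n : ℤ} (hn : n ≠ 0) {p : ℕ} (hp : n.natAbs < p) : ((n : ℤ) : ZMod p) ≠ 0 := by
  intro h
  rw [ZMod.intCast_zmod_eq_zero_iff_dvd] at h
  have h1 := Int.natAbs_dvd_natAbs.2 h
  rw [Int.natAbs_natCast] at h1
  have h2 := Nat.le_of_dvd (Int.natAbs_pos.2 hn) h1
  omega

theorem zero_set (hC : 0 ≤ C) (hU : Unif Y hdet q C) {A₀ : Matrix (Fin m) (Fin m) ℤ}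
    (hA₀ : A₀.det ≠ 0) (ψ : MvPolynomial (Fin m × Fin m) ℤ) (M : Matrix (Fin m) (Fin m) ℤ)
    (hM : M.det = A₀.det) (hψ : val ψ M ≠ 0) :
    ∃ K : ℝ, 0 ≤ K ∧ ∃ B : ℕ, ∀ (p : ℕ) [Fact p.Prime], B < p →
      (p : ℝ) * ((univ.filter fun g : SpecialLinearGroup (Fin m) (ZMod p) =>
        val ψ (rd p A₀ * g.1) = 0).card : ℝ) ≤
        K * Fintype.card (SpecialLinearGroup (Fin m) (ZMod p)) := by
  refine ⟨2 * (Fp A₀ Y ψ).totalDegree, by positivity, B0 q C A₀ + (val ψ M).natAbs, ?_⟩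
  intro p hp hB
  obtain ⟨h1, h2, h3, -⟩ := B0_spec (q := q) (C := C) hA₀ (p := p) (by omega)
  obtain ⟨x, hx⟩ := hit_val hC hU h1 h2 A₀ M hM h3
  refine zero_fix hC hU h1 h2 (Fp A₀ Y ψ) (fun g => val ψ (rd p A₀ * g.1))
    (fun x => aeval_Fp hdet A₀ ψ x) x ?_ _ le_rfl
  rw [hx]
  exact not_dvd_big hψ (by omega)

/-- the polynomials in the parameters are not constant -/
theorem Fp_ne_C (hC : 0 ≤ C) (hU : Unif Y hdet q C) {A₀ : Matrix (Fin m) (Fin m) ℤ}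
    (hA₀ : A₀.det ≠ 0) {w : Fin m → ℕ} {φ : MvPolynomial (Fin m × Fin m) ℤ} (hφ : ColHom w φ)
    (c : Fin m → ℤ) (hc : ∑ b, c b = 0) (k : ℕ) (hk0 : 0 < k) (hk : ∑ b, c b * (w b : ℤ) = k)
    (M : Matrix (Fin m) (Fin m) ℤ) (hM : M.det = A₀.det) (hφM : val φ M ≠ 0) (z : ℤ) :
    Fp A₀ Y φ ≠ MvPolynomial.C z := by
  intro hz
  obtain ⟨p, hp1, hp2⟩ := Nat.exists_infinite_primes (B0 q C A₀ + (val φ M).natAbs + k + 3)
  have : Fact p.Prime := ⟨hp2⟩
  obtain ⟨h1, h2, h3, h4⟩ := B0_spec (q := q) (C := C) hA₀ (p := p) (by omega)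
  obtain ⟨x, hx⟩ := hit_val hC hU h1 h2 A₀ M hM h3
  have hzx := hx φ
  rw [hz, aeval_C] at hzx
  have hM0 : ((val φ M : ℤ) : ZMod p) ≠ 0 := not_dvd_big hφM (by omega)
  have hconst : ∀ g : SpecialLinearGroup (Fin m) (ZMod p), fn φ (rd p A₀) g = ((val φ M : ℤ) : ZMod p) := by
    intro g
    obtain ⟨y, hy⟩ := surj hC hU h1 h2 g
    have e := aeval_Fp hdet A₀ φ y
    rw [hz, aeval_C, hy] at e
    rw [fn, ← e, ← hzx]
  have hpow : ∀ u : (ZMod p)ˣ, u ^ k = 1 := by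
    intro u
    have e := fn_tor_nat hφ (rd p A₀) 1 c hc k hk u
    rw [hconst, hconst] at e
    have e2 : (u : ZMod p) ^ k = 1 := by
      have e3 : (1 : ZMod p) * ((val φ M : ℤ) : ZMod p) = (u : ZMod p) ^ k * ((val φ M : ℤ) : ZMod p) := by
        rw [one_mul]
        exact e
      exact (mul_right_cancel₀ hM0 e3).symm
    apply Units.ext
    rw [Units.val_pow_eq_pow_val, e2, Units.val_one]
  have hcard := npow_card_le k hk0 (1 : (ZMod p)ˣ)
  rw [Finset.filter_true_of_mem (fun u _ => hpow u), Finset.card_univ, ZMod.card_units] at hcard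
  omega

end par

end Pool.Agent.N270.CH
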