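import Mathlib

/-! Polynomials in the entries of a matrix: values, column homogeneity, expansions. -/

set_option autoImplicit false
set_option linter.unusedSectionVars false

namespace Pool.Agent.N270.CH

open Finset Matrix MvPolynomial

/-- the value of a polynomial in the entries at a matrix -/
noncomputable def val {m : ℕ} {R : Type} [CommRing R] (φ : MvPolynomial (Fin m × Fin m) ℤ)
    (M : Matrix (Fin m) (Fin m) R) : R := aeval (fun e : Fin m × Fin m => M e.1 e.2) φ

/-- homogeneous of degree `w b` in the entries of the column `b`, for every `b` -/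
def ColHom {m : ℕ} (w : Fin m → ℕ) (φ : MvPolynomial (Fin m × Fin m) ℤ) : Prop :=
  ∀ e ∈ φ.support, ∀ b, ∑ a, e (a, b) = w b

/-- the column `b` is replaced by the column `a` -/
def rep {m : ℕ} {R : Type} (a b : Fin m) (M : Matrix (Fin m) (Fin m) R) :
    Matrix (Fin m) (Fin m) R := M.updateCol b (fun i => M i a)

/-- the column `a` is added to the column `b` -/
def add {m : ℕ} {R : Type} [CommRing R] (a b : Fin m) (M : Matrix (Fin m) (Fin m) R) :
    Matrix (Fin m) (Fin m) R := M.updateCol b (fun i => M i b + M i a)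

/-- the discriminant of the quadratic polynomial `t ↦ φ (M with t times column a added to column b)` -/
noncomputable def disc {m : ℕ} {R : Type} [CommRing R] (φ : MvPolynomial (Fin m × Fin m) ℤ)
    (a b : Fin m) (M : Matrix (Fin m) (Fin m) R) : R :=
  (val φ (add a b M) - val φ M - val φ (rep a b M)) ^ 2 - 4 * val φ M * val φ (rep a b M)

variable {m : ℕ} {R S : Type} [CommRing R] [CommRing S]

theorem val_map (f : R →+* S) (φ : MvPolynomial (Fin m × Fin m) ℤ) (M : Matrix (Fin m) (Fin m) R) :
    val φ (M.map f) = f (val φ M) := by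
  have h : (aeval (fun e : Fin m × Fin m => (M.map f) e.1 e.2) :
      MvPolynomial (Fin m × Fin m) ℤ →ₐ[ℤ] S).toRingHom =
      f.comp (aeval (fun e : Fin m × Fin m => M e.1 e.2) :
        MvPolynomial (Fin m × Fin m) ℤ →ₐ[ℤ] R).toRingHom := by
    refine MvPolynomial.ringHom_ext (fun r => ?_) (fun i => ?_)
    · simp
    · simp
  exact congrArg (fun g => g φ) h

theorem rep_map (f : R →+* S) (a b : Fin m) (M : Matrix (Fin m) (Fin m) R) :
    rep a b (M.map f) = (rep a b M).map f := by
  ext i j
  by_cases h : j = b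
  · subst h
    simp [rep]
  · simp [rep, h]

theorem add_map (f : R →+* S) (a b : Fin m) (M : Matrix (Fin m) (Fin m) R) :
    add a b (M.map f) = (add a b M).map f := by
  ext i j
  by_cases h : j = b
  · subst h
    simp [add]
  · simp [add, h]

theorem disc_map (f : R →+* S) (φ : MvPolynomial (Fin m × Fin m) ℤ) (a b : Fin m)
    (M : Matrix (Fin m) (Fin m) R) : disc φ a b (M.map f) = f (disc φ a b M) := by
  rw [disc, disc, rep_map, add_map, val_map, val_map, val_map]
  simp [map_ofNat]

theorem val_eq (φ : MvPolynomial (Fin m × Fin m) ℤ) (M : Matrix (Fin m) (Fin m) R) :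
    val φ M = ∑ e ∈ φ.support, ((φ.coeff e : ℤ) : R) * ∏ b, ∏ a, M a b ^ e (a, b) := by
  rw [val, aeval_def, eval₂_eq']
  refine Finset.sum_congr rfl fun e _ => ?_
  rw [Fintype.prod_prod_type_right]
  simp

/-- scaling of the columns -/
theorem val_diag {w : Fin m → ℕ} {φ : MvPolynomial (Fin m × Fin m) ℤ} (h : ColHom w φ)
    (M : Matrix (Fin m) (Fin m) R) (t : Fin m → R) :
    val φ (M * diagonal t) = (∏ b, t b ^ w b) * val φ M := by
  rw [val_eq, val_eq, Finset.mul_sum]
  refine Finset.sum_congr rfl fun e he => ?_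
  have h1 : ∏ b, ∏ a, (M * diagonal t) a b ^ e (a, b) =
      (∏ b, t b ^ w b) * ∏ b, ∏ a, M a b ^ e (a, b) := by
    rw [← Finset.prod_mul_distrib]
    refine Finset.prod_congr rfl fun b _ => ?_
    rw [← h e he b, ← Finset.prod_pow_eq_pow_sum, ← Finset.prod_mul_distrib]
    refine Finset.prod_congr rfl fun a _ => ?_
    rw [mul_diagonal, mul_pow, mul_comm]
  rw [h1]
  ring

/-- peeling off one variable of a monomial -/
theorem peel (s : ℕ) (k : Fin m → ℕ) (hk : ∑ a, k a = s + 1) :
    ∃ (a₀ : Fin m) (k' : Fin m → ℕ), ∑ a, k' a = s ∧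
      ∀ x : Fin m → R, ∏ a, x a ^ k a = x a₀ * ∏ a, x a ^ k' a := by
  classical
  obtain ⟨a₀, ha₀⟩ : ∃ a₀, k a₀ ≠ 0 := by
    by_contra hcon
    push Not at hcon
    simp [hcon] at hk
  refine ⟨a₀, Function.update k a₀ (k a₀ - 1), ?_, fun x => ?_⟩
  · have h1 := Finset.add_sum_erase univ k (mem_univ a₀)
    have h2 := Finset.add_sum_erase univ (Function.update k a₀ (k a₀ - 1)) (mem_univ a₀)
    rw [Function.update_self] at h2
    have h3 : ∑ x ∈ univ.erase a₀, Function.update k a₀ (k a₀ - 1) x = ∑ x ∈ univ.erase a₀, k x :=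
      Finset.sum_congr rfl fun a ha => Function.update_of_ne (Finset.ne_of_mem_erase ha) _ _
    rw [h3] at h2
    omega
  · have h1 := Finset.mul_prod_erase univ (fun a => x a ^ k a) (mem_univ a₀)
    have h2 := Finset.mul_prod_erase univ
      (fun a => x a ^ Function.update k a₀ (k a₀ - 1) a) (mem_univ a₀)
    simp only [Function.update_self] at h2
    have h3 : ∏ a ∈ univ.erase a₀, x a ^ Function.update k a₀ (k a₀ - 1) a =
        ∏ a ∈ univ.erase a₀, x a ^ k a :=
      Finset.prod_congr rfl fun a ha => by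
        rw [Function.update_of_ne (Finset.ne_of_mem_erase ha)]
    rw [h3] at h2
    rw [← h1, ← h2, ← mul_assoc, ← pow_succ']
    congr 2
    omega

theorem lin1 (k : Fin m → ℕ) (hk : ∑ a, k a = 1) (v v' : Fin m → R) (t : R) :
    ∏ a, (v a + t * v' a) ^ k a = ∏ a, v a ^ k a + t * ∏ a, v' a ^ k a := by
  obtain ⟨a₀, k', hk', h⟩ := peel (R := R) 0 k hk
  have h0 : ∀ x : Fin m → R, ∏ a, x a ^ k' a = 1 := by
    intro x
    refine Finset.prod_eq_one fun a ha => ?_
    have : k' a = 0 := (Finset.sum_eq_zero_iff.1 hk') a ha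
    rw [this, pow_zero]
  rw [h, h, h, h0, h0, h0]
  ring

theorem lin2 (k : Fin m → ℕ) (hk : ∑ a, k a = 2) (v v' : Fin m → R) (t : R) :
    ∏ a, (v a + t * v' a) ^ k a = ∏ a, v a ^ k a +
      t * (∏ a, (v a + v' a) ^ k a - ∏ a, v a ^ k a - ∏ a, v' a ^ k a) +
      t ^ 2 * ∏ a, v' a ^ k a := by
  obtain ⟨a₀, k', hk', h⟩ := peel (R := R) 1 k hk
  have h1 := lin1 k' hk' v v' t
  have h2 := lin1 k' hk' v v' 1
  simp only [one_mul] at h2
  rw [h, h, h, h, h1, h2]
  ring

/-- the value after a change of one column -/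
theorem val_updateCol (φ : MvPolynomial (Fin m × Fin m) ℤ) (M : Matrix (Fin m) (Fin m) R)
    (b : Fin m) (v : Fin m → R) :
    val φ (M.updateCol b v) = ∑ e ∈ φ.support, (((φ.coeff e : ℤ) : R) *
      ∏ b' ∈ univ.erase b, ∏ a, M a b' ^ e (a, b')) * ∏ a, v a ^ e (a, b) := by
  rw [val_eq]
  refine Finset.sum_congr rfl fun e _ => ?_
  rw [← Finset.prod_erase_mul univ _ (mem_univ b), ← mul_assoc]
  congr 1
  · congr 1
    refine Finset.prod_congr rfl fun b' hb' => ?_
    refine Finset.prod_congr rfl fun a _ => ?_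
    rw [Matrix.updateCol_ne (Finset.ne_of_mem_erase hb')]
  · refine Finset.prod_congr rfl fun a _ => ?_
    rw [Matrix.updateCol_self]

theorem self_updateCol (M : Matrix (Fin m) (Fin m) R) (b : Fin m) :
    M.updateCol b (fun i => M i b) = M := by
  ext i j
  by_cases h : j = b
  · subst h
    simp
  · simp [h]

theorem mul_trans (M : Matrix (Fin m) (Fin m) R) (a b : Fin m) (t : R) :
    M * transvection a b t = M.updateCol b (fun i => M i b + t * M i a) := by
  ext i j
  by_cases h : j = b
  · subst h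
    rw [mul_transvection_apply_same, Matrix.updateCol_self]
  · rw [mul_transvection_apply_of_ne _ _ _ _ h, Matrix.updateCol_ne h]

theorem val_lin {w : Fin m → ℕ} {φ : MvPolynomial (Fin m × Fin m) ℤ} (h : ColHom w φ)
    {a b : Fin m} (hb : w b = 1) (M : Matrix (Fin m) (Fin m) R) (t : R) :
    val φ (M * transvection a b t) = val φ M + t * val φ (rep a b M) := by
  rw [mul_trans, rep]
  conv_rhs => rw [← self_updateCol M b]
  rw [val_updateCol, val_updateCol]
  have h2 : ((M.updateCol b fun i => M i b).updateCol b fun i => (M.updateCol b fun i => M i b) i a) =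
      M.updateCol b (fun i => M i a) := by
    rw [self_updateCol]
  rw [h2, val_updateCol, Finset.mul_sum, ← Finset.sum_add_distrib]
  refine Finset.sum_congr rfl fun e he => ?_
  rw [lin1 (fun a => e (a, b)) (by rw [h e he b, hb])]
  ring

theorem val_quad {w : Fin m → ℕ} {φ : MvPolynomial (Fin m × Fin m) ℤ} (h : ColHom w φ)
    {a b : Fin m} (hb : w b = 2) (M : Matrix (Fin m) (Fin m) R) (t : R) :
    val φ (M * transvection a b t) = val φ M +
      t * (val φ (add a b M) - val φ M - val φ (rep a b M)) + t ^ 2 * val φ (rep a b M) := by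
  have h0 : val φ M = val φ (M.updateCol b fun i => M i b) := by rw [self_updateCol]
  rw [h0, mul_trans, rep, add, val_updateCol, val_updateCol, val_updateCol, val_updateCol,
    Finset.mul_sum, ← Finset.sum_sub_distrib, ← Finset.sum_sub_distrib, Finset.mul_sum,
    ← Finset.sum_add_distrib, ← Finset.sum_add_distrib]
  refine Finset.sum_congr rfl fun e he => ?_
  rw [lin2 (fun a => e (a, b)) (by rw [h e he b, hb])]
  ring

end Pool.Agent.N270.CH
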